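import Pool.Agent.Helper96.Clu.Contra

/-!
# Expansion in a basis with properties 1 and 3
-/

namespace Pool.Agent.Helper96.Clu

open St

variable {S : Set (Amb 3 3)}

lemma npos1 : PP (pz (n := 3) 0) (cv 1 * zx ^ 5 * zu) :=
  ((PP_inr (by decide)).mul ((seed_pos 0 is0 0).pow 5)).mul (seed_pos 0 is1 1)

lemma npos2 : PP (pz (n := 3) 0) (cv 1 ^ 2 * zx ^ 2 * zq * zu) :=
  ((((PP_inr (by decide)).pow 2).mul ((seed_pos 0 is0 0).pow 2)).mul (seed_pos 0 is0 2)).mul
    (seed_pos 0 is1 1)

lemma npos3 : PP (pz (n := 3) 0) (cv 2 * zx ^ 5 * zv) :=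
  ((PP_inr (by decide)).mul ((seed_pos 0 is0 0).pow 5)).mul (seed_pos 0 is2 2)

lemma npos4 : PP (pz (n := 3) 0) (cv 2 ^ 2 * zx ^ 2 * zp * zv) :=
  ((((PP_inr (by decide)).pow 2).mul ((seed_pos 0 is0 0).pow 2)).mul (seed_pos 0 is0 1)).mul
    (seed_pos 0 is2 2)

/-- multiplication by a fixed nonzero element mapping `S` to `S` -/
noncomputable def mulMap (S : Set (Amb 3 3)) (c : Amb 3 3) (h : ∀ b ∈ S, c * b ∈ S) : S → S :=
  fun b => ⟨c * b, h b b.2⟩

lemma mulMap_inj {c : Amb 3 3} (h : ∀ b ∈ S, c * b ∈ S) (hc : c ≠ 0) :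
    Function.Injective (mulMap S c h) := by
  intro a b hab
  have : c * (a : Amb 3 3) = c * b := congrArg Subtype.val hab
  exact Subtype.ext (mul_left_cancel₀ hc this)

/-- the linear combination map -/
noncomputable def LC (S : Set (Amb 3 3)) : (S →₀ ℂ) →ₗ[ℂ] Amb 3 3 :=
  Finsupp.linearCombination ℂ (Subtype.val : S → Amb 3 3)

lemma LC_mul {c : Amb 3 3} (h : ∀ b ∈ S, c * b ∈ S) (φ : S →₀ ℂ) :
    LC S (Finsupp.mapDomain (mulMap S c h) φ) = c * LC S φ := by
  unfold LC
  rw [Finsupp.linearCombination_mapDomain, Finsupp.linearCombination_apply,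
    Finsupp.linearCombination_apply, Finsupp.sum, Finsupp.sum, Finset.mul_sum]
  apply Finset.sum_congr rfl
  intro b _
  rw [mul_smul_comm]
  rfl

lemma no_basis (hb : IsAdditiveBasis exB S) (h1 : Prop1 exB S) (h3 : Prop3 S) : False := by
  obtain ⟨hli, hsp⟩ := hb
  have hsp' : Submodule.span ℂ S = Subalgebra.toSubmodule AA := hsp
  have hSA : ∀ b ∈ S, b ∈ AA := by
    intro b hb
    have : b ∈ Submodule.span ℂ S := Submodule.subset_span hb
    rw [hsp'] at this
    exact this
  have hinj : Function.Injective (LC S) := by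
    have : LinearIndependent ℂ (Subtype.val : S → Amb 3 3) := hli
    exact this
  have hex : ∀ f ∈ AA, ∃ φ, LC S φ = f := by
    intro f hf
    have h : f ∈ Submodule.span ℂ S := by rw [hsp']; exact hf
    have h' : f ∈ LinearMap.range (LC S) := by
      unfold LC
      rw [Finsupp.range_linearCombination, Subtype.range_coe]
      exact h
    exact h'
  have hc : ∀ j : Fin 3, ∀ b ∈ S, cv j * b ∈ S := h3
  have hc4 : ∀ b ∈ S, cv 0 ^ 4 * b ∈ S := by
    intro b hb
    have := hc 0 _ (hc 0 _ (hc 0 _ (hc 0 _ hb)))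
    have e : cv 0 ^ 4 * b = cv 0 * (cv 0 * (cv 0 * (cv 0 * b))) := by ring
    rw [e]; exact this
  obtain ⟨φ, hφ⟩ := hex _ PB_mem
  obtain ⟨ψ1, hψ1⟩ := hex _ P1_mem
  obtain ⟨ψ2, hψ2⟩ := hex _ P2_mem
  set n1 : S := ⟨N1, h1 _ N1_mon⟩ with hn1
  set n2 : S := ⟨N2, h1 _ N2_mon⟩ with hn2
  set n3 : S := ⟨N3, h1 _ N3_mon⟩ with hn3
  set n4 : S := ⟨N4, h1 _ N4_mon⟩ with hn4
  have hrel : Finsupp.mapDomain (mulMap S _ hc4) φ
      = Finsupp.mapDomain (mulMap S _ (hc 1)) ψ1 + Finsupp.mapDomain (mulMap S _ (hc 2)) ψ2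
        - (Finsupp.single n1 1 + Finsupp.single n2 2 + Finsupp.single n3 1
          + Finsupp.single n4 2) := by
    apply hinj
    rw [map_sub, map_add, LC_mul, LC_mul, LC_mul, hφ, hψ1, hψ2, key', map_add, map_add, map_add]
    have hs : ∀ (x : S) (c : ℂ), LC S (Finsupp.single x c) = c • (x : Amb 3 3) := by
      intro x c
      unfold LC
      rw [Finsupp.linearCombination_single]
    rw [hs, hs, hs, hs, hn1, hn2, hn3, hn4]
    simp only [one_smul, two_smul]
    ring
  have hmem : ∀ b ∈ φ.support, (b : Amb 3 3) ∈ VV 1 ⊔ VV 2 := by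
    intro b hb
    have hb0 : φ b ≠ 0 := Finsupp.mem_support_iff.mp hb
    have hbA := hSA b b.2
    have h0 : (cv 0) ^ 4 ≠ 0 := pow_ne_zero _ (cv_ne 0)
    by_cases r1 : mulMap S _ hc4 b ∈ Set.range (mulMap S _ (hc 1))
    · obtain ⟨b', hb'⟩ := r1
      apply Submodule.mem_sup_left
      refine ⟨hbA, b', hSA b' b'.2, ?_⟩
      exact (congrArg Subtype.val hb').symm
    · by_cases r2 : mulMap S _ hc4 b ∈ Set.range (mulMap S _ (hc 2))
      · obtain ⟨b', hb'⟩ := r2
        apply Submodule.mem_sup_right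
        refine ⟨hbA, b', hSA b' b'.2, ?_⟩
        exact (congrArg Subtype.val hb').symm
      · exfalso
        have hev := DFunLike.congr_fun hrel (mulMap S _ hc4 b)
        rw [Finsupp.mapDomain_apply (mulMap_inj hc4 h0)] at hev
        have q1 : n1 ≠ mulMap S _ hc4 b := by
          intro e
          refine not_div (k := 0) (by norm_num) ?_ npos1 hbA (congrArg Subtype.val e).symm
          rw [hn1]; unfold N1; ring
        have q2 : n2 ≠ mulMap S _ hc4 b := by
          intro e
          refine not_div (k := 2) (by norm_num) ?_ npos2 hbA (congrArg Subtype.val e).symm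
          rw [hn2]; unfold N2; ring
        have q3 : n3 ≠ mulMap S _ hc4 b := by
          intro e
          refine not_div (k := 0) (by norm_num) ?_ npos3 hbA (congrArg Subtype.val e).symm
          rw [hn3]; unfold N3; ring
        have q4 : n4 ≠ mulMap S _ hc4 b := by
          intro e
          refine not_div (k := 2) (by norm_num) ?_ npos4 hbA (congrArg Subtype.val e).symm
          rw [hn4]; unfold N4; ring
        rw [Finsupp.sub_apply, Finsupp.add_apply, Finsupp.add_apply, Finsupp.add_apply,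
          Finsupp.add_apply, Finsupp.mapDomain_of_notMem_range _ _ r1,
          Finsupp.mapDomain_of_notMem_range _ _ r2, Finsupp.single_eq_of_ne' q1,
          Finsupp.single_eq_of_ne' q2, Finsupp.single_eq_of_ne' q3,
          Finsupp.single_eq_of_ne' q4] at hev
        exact hb0 (by rw [hev]; ring)
  apply PB_not_mem
  rw [← hφ]
  unfold LC
  rw [Finsupp.linearCombination_apply, Finsupp.sum]
  exact Submodule.sum_mem _ fun b hb => Submodule.smul_mem _ _ (hmem b hb)

end Pool.Agent.Helper96.Clu
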