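import Pool.Agent.Helper96.Clu.Good

/-!
# Mutation closedness of the family `Good`
-/

namespace Pool.Agent.Helper96.Clu

set_option linter.unusedSectionVars false
set_option linter.unusedSimpArgs false

variable {K : Type*} [Field K]

namespace St

variable {Sm : K → (Fin 4 → ℤ) → Prop} {P : K → Prop}

lemma exZ_1 (z x y : ℤ) : exZ 1 (-3) z x y = max 0 (z + 3 * x) - y := by
  unfold exZ; simp

lemma exZ_2 (x y z : ℤ) : exZ 0 (-1) x y z = max 0 y - z := by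
  unfold exZ; simp

lemma exZ_3 (y z x : ℤ) : exZ 3 0 y z x = max 0 (3 * y) - x := by
  unfold exZ; simp

lemma exZ_4 (y z x : ℤ) : exZ (-3) (-3) y z x = max (3 * y) (3 * z) - x := by
  unfold exZ; simp

lemma inv_step {T : St K} (ha : T.a = -3) (hb : T.b = 1) (hc : T.c = 0) (h : T.Inv) :
    2 * T.d0 0 ≤ T.m1.d1 0 ∧ 2 * T.d0 0 ≤ T.m1.m2.d2 0 ∧ T.m1.m2.m0.Inv := by
  obtain ⟨h1, h2, h3, h4⟩ := h
  have f1 : fB 1 (-3) = 0 := by decide
  have f2 : fB (-0) (- 1) = 0 := by decide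
  have e1 : T.m1.d1 0 = max 0 (T.d2 0 + 3 * T.d0 0) - T.d1 0 := by
    simp only [m1, ha, hb, exZ_1]
  have e2 : T.m1.m2.d2 0 = max 0 (T.m1.d1 0) - T.d2 0 := by
    simp only [m1, m2, ha, hb, hc, f1, add_zero]
    rw [show (-(1:ℤ)) = -1 from rfl, exZ_2]
  have e3 : T.m1.m2.m0.d0 0 = max 0 (3 * T.m1.d1 0) - T.d0 0 := by
    simp only [m0, m1, m2, ha, hb, hc, f1, f2, add_zero, neg_neg, neg_zero, fB_zero_left]
    rw [exZ_3]
  have e4 : T.m1.m2.m0.d1 0 = T.m1.d1 0 := rfl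
  have e5 : T.m1.m2.m0.d2 0 = T.m1.m2.d2 0 := rfl
  unfold Inv
  rw [e3, e4, e5, e2]
  generalize T.m1.d1 0 = u at *
  omega

lemma SBp.nonneg (hSm : ∀ v d, Sm v d → 0 ≤ d 0) {v : K} {d : Fin 4 → ℤ} (h : SBp Sm v d) :
    0 ≤ d 0 := by
  rcases h with h | h
  · exact hSm _ _ h
  · omega

/-- the facts about each stage of the chain -/
structure Stage (Sm : K → (Fin 4 → ℤ) → Prop) (k : St K) (n : ℕ) : Prop where
  sK : (chK k n).SB Sm
  sM : (chM k n).SB Sm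
  sS : (chS k n).SB Sm
  sC : (chC k n).SB Sm
  sD : (chD k n).SB Sm
  inv : (chK k (n + 1)).Inv

lemma chS_m2 (hP : PosSet P) {k : St K} (hk : k.Pos P) (n : ℕ) : (chS k n).m2 = chM k n :=
  m2_m2 hP ((ch_pos hP hk n).m1 hP)

/-- `D_{n+1} = μ_0 M_n` -/
lemma chD_succ (hP : PosSet P) {k : St K} (hk : k.Pos P) (ha : k.a = -3) (hb : k.b = 1)
    (hc : k.c = 0) (n : ℕ) : chD k (n + 1) = (chM k n).m0 := by
  have h1 : chD k (n + 1) = (chS k n).m0.m2 := rfl
  rw [h1, comm02 (chS_abc ha hb hc n).2.2, chS_m2 hP hk]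

/-- `μ_1 D_n` is `C_n` up to the swap -/
lemma chD_m1 (hP : PosSet P) {k : St K} (hk : k.Pos P) (ha : k.a = -3) (hb : k.b = 1)
    (hc : k.c = 0) (n : ℕ) : (chD k n).m1 = (chC k n).sw := by
  obtain ⟨h1, h2, h3⟩ := ch_abc ha hb hc n
  exact pentagon hP (ch_pos hP hk n) h1 h2 h3

lemma stage (hP : PosSet P) {k : St K} (h : Core P Sm k) (n : ℕ) : Stage Sm k n := by
  induction n with
  | zero => exact ⟨h.sK, h.sM, h.sS, h.sC, h.sD, h.inv⟩
  | succ n ih =>
    obtain ⟨ha, hb, hc⟩ := ch_abc h.a h.b h.c (n + 1)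
    obtain ⟨i1, i2, i3⟩ := inv_step ha hb hc ih.inv
    have j1 := ih.inv.1
    have sK : (chK k (n + 1)).SB Sm := ⟨Or.inr j1, ih.sS.2⟩
    have sM : (chM k (n + 1)).SB Sm := ⟨sK.1, Or.inr (by
      have : (chM k (n + 1)).d1 0 = (chK k (n + 1)).m1.d1 0 := rfl
      omega), sK.2.2⟩
    have sS : (chS k (n + 1)).SB Sm := ⟨sK.1, sM.2.1, Or.inr (by
      have : (chS k (n + 1)).d2 0 = (chK k (n + 1)).m1.m2.d2 0 := rfl
      omega)⟩
    have sD : (chD k (n + 1)).SB Sm := by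
      have e := chD_succ hP h.pos h.a h.b h.c n
      refine ⟨sK.1, ?_⟩
      rw [e]
      exact ih.sM.2
    have sC : (chC k (n + 1)).SB Sm := by
      refine ⟨sS.1, ?_, sS.2.2⟩
      have e := chD_m1 hP h.pos h.a h.b h.c (n + 1)
      have e1 : (chC k (n + 1)).g1 = (chD k (n + 1)).g2 := (congrArg St.g2 e).symm
      have e2 : (chC k (n + 1)).d1 = (chD k (n + 1)).d2 := (congrArg St.d2 e).symm
      rw [e1, e2]
      exact sD.2.2
    exact ⟨sK, sM, sS, sC, sD, i3⟩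

lemma ch_fork (hP : PosSet P) (hSm : ∀ v d, Sm v d → 0 ≤ d 0) {k : St K} (h : Core P Sm k)
    (n : ℕ) : (chC k n).m0.Fork0 ∧ (chC k n).m0.SB Sm := by
  rcases n with _ | n
  · exact ⟨h.fork, h.forkS⟩
  · obtain ⟨ha, hb, hc⟩ := ch_abc h.a h.b h.c (n + 1)
    have st := stage hP h (n + 1)
    have inv := (stage hP h n).inv
    obtain ⟨i1, i2, i3⟩ := inv_step ha hb hc inv
    obtain ⟨ca, cb, cc⟩ := chC_abc h.a h.b h.c (n + 1)
    have n1 := SBp.nonneg hSm st.sC.2.1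
    have e2 : (chC k (n + 1)).d2 0 = (chK k (n + 1)).m1.m2.d2 0 := rfl
    have e0 : (chC k (n + 1)).d0 0 = (chK k (n + 1)).d0 0 := rfl
    have ex : (chC k (n + 1)).m0.d0 0
        = max (3 * (chC k (n + 1)).d1 0) (3 * (chC k (n + 1)).d2 0) - (chC k (n + 1)).d0 0 := by
      simp only [m0, ca, cb, cc, exZ_4]
    have j1 := inv.1
    have fa : (chC k (n + 1)).m0.a = 3 := by simp only [m0, ca]; norm_num
    have fb : (chC k (n + 1)).m0.b = 8 := by simp only [m0, ca, cb, cc]; decide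
    have fc : (chC k (n + 1)).m0.c = 3 := by simp only [m0, cc]; norm_num
    refine ⟨?_, ?_, st.sC.2⟩
    · unfold Fork0
      rw [fa, fb, fc, ex]
      have q1 : (chC k (n + 1)).m0.d1 0 = (chC k (n + 1)).d1 0 := rfl
      have q2 : (chC k (n + 1)).m0.d2 0 = (chC k (n + 1)).d2 0 := rfl
      rw [q1, q2]
      refine ⟨Or.inl ⟨le_refl _, le_refl _, by norm_num, by norm_num⟩, ?_⟩
      omega
    · right
      rw [ex]
      omega

lemma fork0_op {T : St K} (h : T.Fork0) : T.op.Fork0 := FI.neg h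
lemma fork1_op {T : St K} (h : T.Fork1) : T.op.Fork1 := FI.neg h
lemma fork2_op {T : St K} (h : T.Fork2) : T.op.Fork2 := FI.neg h

/-- all seeds obtained from a chain seed by one mutation -/
lemma ch_closed (hP : PosSet P) (hSm : ∀ v d, Sm v d → 0 ≤ d 0) {k k' : St K}
    (h : Core P Sm k) (h' : Core P Sm k') (hk : k' = k.m1.op) {T : St K} (hT : Ch k T) :
    Good Sm k k' T.m0 ∧ Good Sm k k' T.m1 ∧ Good Sm k k' T.m2 := by
  have hpos := h.pos
  have bK : ∀ n, Good Sm k k' (chK k n) := fun n => .base _ ⟨n, Or.inl rfl⟩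
  have bM : ∀ n, Good Sm k k' (chM k n) := fun n => .base _ ⟨n, Or.inr (Or.inl rfl)⟩
  have bS : ∀ n, Good Sm k k' (chS k n) := fun n => .base _ ⟨n, Or.inr (Or.inr (Or.inl rfl))⟩
  have bC : ∀ n, Good Sm k k' (chC k n) :=
    fun n => .base _ ⟨n, Or.inr (Or.inr (Or.inr (Or.inl rfl)))⟩
  have bD : ∀ n, Good Sm k k' (chD k n) :=
    fun n => .base _ ⟨n, Or.inr (Or.inr (Or.inr (Or.inr rfl)))⟩
  have pK := ch_pos hP hpos
  have pM : ∀ n, (chM k n).Pos P := fun n => (pK n).m1 hP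
  have pS : ∀ n, (chS k n).Pos P := fun n => (pM n).m2 hP
  have pC : ∀ n, (chC k n).Pos P := fun n => (pS n).m1 hP
  have pD : ∀ n, (chD k n).Pos P := fun n => (pK n).m2 hP
  have hM0 : chM k' 0 = k.op := by
    change k'.m1 = k.op
    rw [hk, m1_op, m1_m1 hP hpos]
  have hS0 : chS k' 0 = (chD k 0).op := by
    change (chM k' 0).m2 = k.m2.op
    rw [hM0, m2_op]
  obtain ⟨n, rfl | rfl | rfl | rfl | rfl⟩ := hT
  · -- K
    refine ⟨?_, bM n, bD n⟩
    rcases n with _ | n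
    · have e : (chD k' 1).op = (chK k 0).m0 := by
        rw [chD_succ hP h'.pos h'.a h'.b h'.c 0, hM0, m0_op, op_op]; rfl
      rw [← e]
      exact .opb _ ⟨1, Or.inr (Or.inr (Or.inr (Or.inr rfl)))⟩
    · have e : (chK k (n + 1)).m0 = chS k n := m0_m0 hP (pS n)
      rw [e]; exact bS n
  · -- M
    refine ⟨?_, ?_, bS n⟩
    · rw [← chD_succ hP hpos h.a h.b h.c n]; exact bD _
    · have e : (chM k n).m1 = chK k n := m1_m1 hP (pK n)
      rw [e]; exact bK n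
  · -- S
    refine ⟨bK (n + 1), bC n, ?_⟩
    rw [chS_m2 hP hpos]; exact bM n
  · -- C
    obtain ⟨f1, f2⟩ := ch_fork hP hSm h n
    refine ⟨.f0 _ (bC n) f1 f2, ?_, ?_⟩
    · have e : (chC k n).m1 = chS k n := m1_m1 hP (pS n)
      rw [e]; exact bS n
    · have e : (chC k n).m2 = (chD k n).sw := by
        have e1 := chD_m1 hP hpos h.a h.b h.c n
        have e2 : chC k n = ((chD k n).m1).sw := by rw [e1, sw_sw]
        rw [e2, m2_sw, m1_m1 hP (pD n)]
      rw [e]; exact .sw _ (bD n)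
  · -- D
    refine ⟨?_, ?_, ?_⟩
    · rcases n with _ | n
      · have e : (chK k' 1).op = (chD k 0).m0 := by
          change ((chS k' 0).m0).op = (chD k 0).m0
          rw [hS0, m0_op, op_op]
        rw [← e]
        exact .opb _ ⟨1, Or.inl rfl⟩
      · rw [chD_succ hP hpos h.a h.b h.c n, m0_m0 hP (pM n)]
        exact bM n
    · rw [chD_m1 hP hpos h.a h.b h.c n]
      exact .sw _ (bC n)
    · have e : (chD k n).m2 = chK k n := m2_m2 hP (pK n)
      rw [e]; exact bK n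

lemma good_op {k k' T : St K} (h : Good Sm k k' T) : Good Sm k' k T.op := by
  induction h with
  | base T hT => exact .opb _ hT
  | opb T hT => rw [op_op]; exact .base _ hT
  | sw T _ ih => rw [op_sw]; exact .sw _ ih
  | f0 T _ h1 h2 ih =>
    rw [← m0_op]
    refine .f0 _ ih ?_ ?_
    · rw [m0_op]; exact fork0_op h1
    · rw [m0_op]; exact h2
  | f1 T _ h1 h2 ih =>
    rw [← m1_op]
    refine .f1 _ ih ?_ ?_
    · rw [m1_op]; exact fork1_op h1
    · rw [m1_op]; exact h2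
  | f2 T _ h1 h2 ih =>
    rw [← m2_op]
    refine .f2 _ ih ?_ ?_
    · rw [m2_op]; exact fork2_op h1
    · rw [m2_op]; exact h2

lemma good_pos (hP : PosSet P) {k k' T : St K} (hk : k.Pos P) (hk' : k'.Pos P)
    (h : Good Sm k k' T) : T.Pos P := by
  have aux : ∀ {k : St K}, k.Pos P → ∀ {T : St K}, Ch k T → T.Pos P := by
    intro k hk T hT
    have pK := ch_pos hP hk
    obtain ⟨n, rfl | rfl | rfl | rfl | rfl⟩ := hT
    · exact pK n
    · exact (pK n).m1 hP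
    · exact ((pK n).m1 hP).m2 hP
    · exact (((pK n).m1 hP).m2 hP).m1 hP
    · exact (pK n).m2 hP
  induction h with
  | base T hT => exact aux hk hT
  | opb T hT => exact (aux hk' hT).op
  | sw T _ ih => exact ih.sw
  | f0 T _ h1 h2 ih => exact ih.m0 hP
  | f1 T _ h1 h2 ih => exact ih.m1 hP
  | f2 T _ h1 h2 ih => exact ih.m2 hP

lemma good_closed (hP : PosSet P) (hSm : ∀ v d, Sm v d → 0 ≤ d 0) {k k' : St K}
    (h : Core P Sm k) (h' : Core P Sm k') (hk : k' = k.m1.op) {T : St K}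
    (hT : Good Sm k k' T) :
    Good Sm k k' T.m0 ∧ Good Sm k k' T.m1 ∧ Good Sm k k' T.m2 := by
  have hk2 : k = k'.m1.op := by
    rw [hk, m1_op, m1_m1 hP h.pos, op_op]
  induction hT with
  | base T hT => exact ch_closed hP hSm h h' hk hT
  | opb T hT =>
    obtain ⟨g0, g1, g2⟩ := ch_closed hP hSm h' h hk2 hT
    rw [m0_op, m1_op, m2_op]
    exact ⟨good_op g0, good_op g1, good_op g2⟩
  | sw T _ ih =>
    rw [m0_sw, m1_sw, m2_sw]
    exact ⟨.sw _ ih.1, .sw _ ih.2.2, .sw _ ih.2.1⟩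
  | f0 T hT h1 h2 ih =>
    have p := good_pos hP h.pos h'.pos hT
    refine ⟨by rw [m0_m0 hP p]; exact hT, ?_, ?_⟩
    · exact .f1 _ (.f0 _ hT h1 h2) (h1.m1 h2).1 (h1.m1 h2).2
    · exact .f2 _ (.f0 _ hT h1 h2) (h1.m2 h2).1 (h1.m2 h2).2
  | f1 T hT h1 h2 ih =>
    have p := good_pos hP h.pos h'.pos hT
    refine ⟨?_, by rw [m1_m1 hP p]; exact hT, ?_⟩
    · exact .f0 _ (.f1 _ hT h1 h2) (h1.m0 h2).1 (h1.m0 h2).2
    · exact .f2 _ (.f1 _ hT h1 h2) (h1.m2 h2).1 (h1.m2 h2).2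
  | f2 T hT h1 h2 ih =>
    have p := good_pos hP h.pos h'.pos hT
    refine ⟨?_, ?_, by rw [m2_m2 hP p]; exact hT⟩
    · exact .f0 _ (.f2 _ hT h1 h2) (h1.m0 h2).1 (h1.m0 h2).2
    · exact .f1 _ (.f2 _ hT h1 h2) (h1.m1 h2).1 (h1.m1 h2).2

lemma good_SB (hP : PosSet P) {k k' T : St K} (h : Core P Sm k)
    (h' : Core P Sm k') (hT : Good Sm k k' T) : T.SB Sm := by
  have aux : ∀ {k : St K}, Core P Sm k → ∀ {T : St K}, Ch k T → T.SB Sm := by
    intro k hk T hT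
    obtain ⟨n, rfl | rfl | rfl | rfl | rfl⟩ := hT
    · exact (stage hP hk n).sK
    · exact (stage hP hk n).sM
    · exact (stage hP hk n).sS
    · exact (stage hP hk n).sC
    · exact (stage hP hk n).sD
  induction hT with
  | base T hT => exact aux h hT
  | opb T hT =>
    have := aux h' hT
    exact this
  | sw T _ ih => exact ⟨ih.1, ih.2.2, ih.2.1⟩
  | f0 T _ h1 h2 ih => exact h2
  | f1 T _ h1 h2 ih => exact h2
  | f2 T _ h1 h2 ih => exact h2

end St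

end Pool.Agent.Helper96.Clu
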