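import Pool.Agent.Helper96.Clu.Final

/-!
# No additive basis of the example has properties 1 and 3
-/

namespace Pool.Agent.Helper96.Clu

open St Polynomial

/-- the cluster algebra of the example -/
noncomputable def AA : Subalgebra ℂ (Amb 3 3) := clusterAlgebra exB

lemma AA_eq : Subalgebra.toSubmodule AA =
    Submodule.span ℂ (Submonoid.closure Gs : Set (Amb 3 3)) := by
  unfold AA clusterAlgebra Gs
  exact Algebra.adjoin_eq_span ℂ _

lemma clu_mem {s : Seed 3 3} (hs : IsSeed exB s) (i : Fin 3) : s.x i ∈ AA :=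
  Algebra.subset_adjoin (Or.inl ⟨s, hs, i, rfl⟩)

lemma cv_mem (j : Fin 3) : cv j ∈ AA := Algebra.subset_adjoin (Or.inr ⟨j, rfl⟩)

lemma is0 : IsSeed exB S0 := IsSeed.init
lemma is1 : IsSeed exB (S0.mutate 1) := is0.step _ _
lemma is2 : IsSeed exB (S0.mutate 2) := is0.step _ _

lemma zx_mem : zx ∈ AA := clu_mem is0 0
lemma zp_mem : zp ∈ AA := clu_mem is0 1
lemma zq_mem : zq ∈ AA := clu_mem is0 2
lemma zu_mem : zu ∈ AA := clu_mem is1 1
lemma zv_mem : zv ∈ AA := clu_mem is2 2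
lemma zw_mem : zw ∈ AA := clu_mem (is1.step _ 2) 2
lemma zy_mem : zy ∈ AA := clu_mem (is0.step _ 0) 0
lemma yu_mem : yu ∈ AA := clu_mem (is1.step _ 0) 0
lemma yv_mem : yv ∈ AA := clu_mem (is2.step _ 0) 0

lemma PB_mem : PB ∈ AA := AA.mul_mem zw_mem zy_mem
lemma P1_mem : zp ^ 2 * yu ∈ AA := AA.mul_mem (AA.pow_mem zp_mem _) yu_mem
lemma P2_mem : zq ^ 2 * yv ∈ AA := AA.mul_mem (AA.pow_mem zq_mem _) yv_mem

/-- the scaling as a linear endomorphism -/
noncomputable def tl : Module.End ℂ (Amb 3 3) := tau.toLinearMap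

lemma tl_apply (f : Amb 3 3) : tl f = tau f := rfl

lemma Eg.tl {f : Amb 3 3} {c : ℂ} (h : Eg f c) : tl f = c • f := by
  rw [tl_apply, h, Algebra.smul_def]

/-- the polynomial vanishing on `S` -/
noncomputable def pol (S : Finset ℂ) : ℂ[X] := ∏ e ∈ S, (X - C e)

lemma pol_eval (S : Finset ℂ) (c : ℂ) : (pol S).eval c = ∏ e ∈ S, (c - e) := by
  unfold pol
  rw [eval_prod]
  simp

/-- the projection operator -/
noncomputable def DD (S : Finset ℂ) : Module.End ℂ (Amb 3 3) := aeval tl (pol S)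

lemma DD_apply (S : Finset ℂ) {f : Amb 3 3} {c : ℂ} (h : Eg f c) :
    DD S f = (∏ e ∈ S, (c - e)) • f := by
  unfold DD
  rw [Module.End.aeval_apply_of_mem_apply_eq_smul h.tl, pol_eval]

/-- the component of degree `dB` -/
noncomputable def WW : Submodule ℂ (Amb 3 3) := Submodule.span ℂ {PB, M1, M2}

lemma DD_mem {R : Amb 3 3} (hR : R ∈ AA) :
    ∃ S : Finset ℂ, EE dB ∉ S ∧ ∀ S', S ⊆ S' → EE dB ∉ S' → DD S' R ∈ WW := by
  have hR' : R ∈ Submodule.span ℂ (Submonoid.closure Gs : Set (Amb 3 3)) := by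
    rw [← AA_eq]; exact hR
  induction hR' using Submodule.span_induction with
  | mem m hm =>
    obtain ⟨d, h1, h2, h3⟩ := MD.closure hm
    rcases eq_or_ne (EE d) (EE dB) with he | he
    · have hd := EE_inj he
      subst hd
      refine ⟨∅, by simp, fun S' _ _ => ?_⟩
      rw [DD_apply S' h1]
      apply Submodule.smul_mem
      rcases h3 with h3 | ⟨e, rfl, h3⟩
      · exact absurd h3 (by decide)
      · apply Submodule.subset_span
        rcases mono_dB h3.symm with h | h | h <;> simp [h]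
    · refine ⟨{EE d}, by simpa using he.symm, fun S' hS' _ => ?_⟩
      have : ∏ e ∈ S', (EE d - e) = 0 :=
        Finset.prod_eq_zero (hS' (Finset.mem_singleton_self _)) (sub_self _)
      rw [DD_apply S' h1, this, zero_smul]
      exact Submodule.zero_mem _
  | zero => exact ⟨∅, by simp, fun S' _ _ => by rw [map_zero]; exact Submodule.zero_mem _⟩
  | add x y hx hy ihx ihy =>
    have hxA : x ∈ AA := by
      have : x ∈ Subalgebra.toSubmodule AA := by rw [AA_eq]; exact hx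
      exact this
    have hyA : y ∈ AA := by
      have : y ∈ Subalgebra.toSubmodule AA := by rw [AA_eq]; exact hy
      exact this
    obtain ⟨S, a1, a2⟩ := ihx hxA
    obtain ⟨T, b1, b2⟩ := ihy hyA
    classical
    refine ⟨S ∪ T, by simp [a1, b1], fun S' hS' hn => ?_⟩
    rw [map_add]
    exact Submodule.add_mem _ (a2 S' (Finset.union_subset_left hS') hn)
      (b2 S' (Finset.union_subset_right hS') hn)
  | smul c x hx ih =>
    have hxA : x ∈ AA := by
      have : x ∈ Subalgebra.toSubmodule AA := by rw [AA_eq]; exact hx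
      exact this
    obtain ⟨S, a1, a2⟩ := ih hxA
    refine ⟨S, a1, fun S' hS' hn => ?_⟩
    rw [map_smul]
    exact Submodule.smul_mem _ _ (a2 S' hS' hn)

lemma tau_mem {f : Amb 3 3} (hf : f ∈ AA) : tau f ∈ AA := by
  unfold AA clusterAlgebra at hf
  induction hf using Algebra.adjoin_induction with
  | mem x hx =>
    obtain ⟨d, h1, -⟩ := MD.gen hx
    rw [h1, ← Algebra.smul_def]
    exact AA.smul_mem (Algebra.subset_adjoin hx) _
  | algebraMap c => rw [AlgHom.commutes]; exact AA.algebraMap_mem c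
  | add x y _ _ hx hy => rw [map_add]; exact AA.add_mem hx hy
  | mul x y _ _ hx hy => rw [map_mul]; exact AA.mul_mem hx hy

/-- elements `R` of the algebra with `c_0 ^ 4 R ∈ c_j A` -/
noncomputable def VV (j : Fin 3) : Submodule ℂ (Amb 3 3) where
  carrier := {R | R ∈ AA ∧ ∃ f ∈ AA, cv 0 ^ 4 * R = cv j * f}
  zero_mem' := ⟨AA.zero_mem, 0, AA.zero_mem, by rw [mul_zero, mul_zero]⟩
  add_mem' := by
    rintro x y ⟨h1, f, h2, h3⟩ ⟨k1, g, k2, k3⟩
    exact ⟨AA.add_mem h1 k1, f + g, AA.add_mem h2 k2, by rw [mul_add, mul_add, h3, k3]⟩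
  smul_mem' := by
    rintro c x ⟨h1, f, h2, h3⟩
    exact ⟨AA.smul_mem h1 c, c • f, AA.smul_mem h2 c, by
      rw [mul_smul_comm, mul_smul_comm, h3]⟩

lemma tl_VV {j : Fin 3} {R : Amb 3 3} (h : R ∈ VV j) : tl R ∈ VV j := by
  obtain ⟨h1, f, h2, h3⟩ := h
  have e0 : tau (cv 0) = algebraMap ℂ (Amb 3 3) (sf (Sum.inr 0)) * cv 0 := tau_var _
  have ej : tau (cv j) = algebraMap ℂ (Amb 3 3) (sf (Sum.inr j)) * cv j := tau_var _
  have hs : algebraMap ℂ (Amb 3 3) (sf (Sum.inr 0)) ≠ 0 := by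
    rw [Ne, map_eq_zero]
    exact sf_ne _
  refine ⟨tau_mem h1, algebraMap ℂ (Amb 3 3) (sf (Sum.inr j) / sf (Sum.inr 0) ^ 4) * tau f,
    AA.mul_mem (AA.algebraMap_mem _) (tau_mem h2), ?_⟩
  have h4 := congrArg tau h3
  rw [map_mul, map_mul, map_pow, e0, ej] at h4
  rw [tl_apply, map_div₀, map_pow]
  field_simp
  linear_combination h4

lemma aeval_VV {j : Fin 3} (p : ℂ[X]) {R : Amb 3 3} (h : R ∈ VV j) : aeval tl p R ∈ VV j := by
  induction p using Polynomial.induction_on with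
  | C a =>
    rw [aeval_C, Module.algebraMap_end_apply]
    exact Submodule.smul_mem _ _ h
  | add p q hp hq =>
    rw [map_add, LinearMap.add_apply]
    exact Submodule.add_mem _ hp hq
  | monomial n a hn =>
    have e : aeval tl (C a * X ^ (n + 1)) R = tl (aeval tl (C a * X ^ n) R) := by
      have : (C a * X ^ (n + 1) : ℂ[X]) = X * (C a * X ^ n) := by ring
      rw [this, map_mul, Module.End.mul_apply, aeval_X]
    rw [e]
    exact tl_VV hn

lemma ev_cv0 {j : Fin 3} (hj : j ≠ 0) : PP (pz (n := 3) j) (cv 0) := PP_inr (Ne.symm hj)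

lemma PB_pos (j : Fin 3) : PP (pz (n := 3) j) PB :=
  (seed_pos j (is1.step _ 2) 2).mul (seed_pos j (is0.step _ 0) 0)

lemma ev_M1 {j : Fin 3} (hj : j ≠ 0) : EvR (pz (n := 3) j) M1 0 := by
  have hx : PP (pz (n := 3) j) zx := seed_pos j is0 0
  have hp : PP (pz (n := 3) j) zp := seed_pos j is0 1
  obtain ⟨r, -, hr⟩ := (hx.pow 2).mul hp
  have hj' : j = 1 ∨ j = 2 := by omega
  rcases hj' with rfl | rfl
  · obtain ⟨t, -, ht⟩ := (NN_inr (n := 3) 1 2 : NN _ (cv 2))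
    have := (((EvR_self (n := 3) 1).mul (ht.mul ht)).mul hr)
    have e : M1 = cv 1 * (cv 2 * cv 2) * (zx ^ 2 * zp) := by unfold M1; ring
    rw [e]
    simpa [cv] using this
  · obtain ⟨t, -, ht⟩ := (NN_inr (n := 3) 2 1 : NN _ (cv 1))
    have := ((ht.mul ((EvR_self (n := 3) 2).mul (EvR_self (n := 3) 2))).mul hr)
    have e : M1 = cv 1 * (cv 2 * cv 2) * (zx ^ 2 * zp) := by unfold M1; ring
    rw [e]
    simpa [cv] using this

lemma ev_M2 {j : Fin 3} (hj : j ≠ 0) : EvR (pz (n := 3) j) M2 0 := by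
  have hx : PP (pz (n := 3) j) zx := seed_pos j is0 0
  have hq : PP (pz (n := 3) j) zq := seed_pos j is0 2
  obtain ⟨r, -, hr⟩ := (hx.pow 2).mul hq
  have hj' : j = 1 ∨ j = 2 := by omega
  rcases hj' with rfl | rfl
  · obtain ⟨t, -, ht⟩ := (NN_inr (n := 3) 1 2 : NN _ (cv 2))
    have := ((((EvR_self (n := 3) 1).mul (EvR_self (n := 3) 1)).mul ht).mul hr)
    have e : M2 = (cv 1 * cv 1) * cv 2 * (zx ^ 2 * zq) := by unfold M2; ring
    rw [e]
    simpa [cv] using this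
  · obtain ⟨t, -, ht⟩ := (NN_inr (n := 3) 2 1 : NN _ (cv 1))
    have := (((ht.mul ht).mul (EvR_self (n := 3) 2)).mul hr)
    have e : M2 = (cv 1 * cv 1) * cv 2 * (zx ^ 2 * zq) := by unfold M2; ring
    rw [e]
    simpa [cv] using this

lemma WW_VV {j : Fin 3} (hj : j ≠ 0) {R : Amb 3 3} (hW : R ∈ WW) (hV : R ∈ VV j) :
    R ∈ Submodule.span ℂ ({M1, M2} : Set (Amb 3 3)) := by
  unfold WW at hW
  rw [Submodule.mem_span_insert] at hW
  obtain ⟨a, z, hz, rfl⟩ := hW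
  have hz' := hz
  rw [Submodule.mem_span_pair] at hz'
  obtain ⟨b, c, rfl⟩ := hz'
  obtain ⟨-, f, hf, hfe⟩ := hV
  obtain ⟨v, hv⟩ := alg_ev j hf
  obtain ⟨r, hr0, hr⟩ := PB_pos j
  obtain ⟨t, ht0, ht⟩ := (ev_cv0 hj).pow 4
  have e1 := ht.mul ((hr.smul a).add (((ev_M1 hj).smul b).add ((ev_M2 hj).smul c)))
  rw [hfe] at e1
  have e2 := (EvR_self (n := 3) j).mul hv
  have e3 := e1.unique e2
  have ha : a = 0 := by
    have ht' : (t : ℂ) ≠ 0 := by exact_mod_cast ht0.ne'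
    have hr' : (r : ℂ) ≠ 0 := by exact_mod_cast hr0.ne'
    simp only [mul_zero, add_zero, zero_mul] at e3
    rcases mul_eq_zero.mp e3 with h | h
    · exact absurd h ht'
    · rcases mul_eq_zero.mp h with h | h
      · exact h
      · exact absurd h hr'
  rw [ha, zero_smul, zero_add]
  exact hz

lemma Eg_PB : Eg PB (EE dB) := by
  have k1 : Eg zw (EE ![1, 1, 1, -3]) := by
    have h := Eg_full Hg_t0.m1.m2.e2
    rw [← rel_init.mut1.mut2.x2, d_5] at h
    exact h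
  have k2 : Eg zy (EE ![2, 0, 0, 8]) := by
    have h := Eg_full Hg_t0.m0.e0
    rw [← rel_init.mut0.x0, d_Y] at h
    exact h
  have e : dB = ![1, 1, 1, -3] + ![2, 0, 0, 8] := by
    funext j; fin_cases j <;> decide
  rw [e, EE_add]
  exact k1.mul k2

lemma PB_not_mem : PB ∉ VV 1 ⊔ VV 2 := by
  intro h
  obtain ⟨R1, h1, R2, h2, hsum⟩ := Submodule.mem_sup.mp h
  obtain ⟨S, a1, a2⟩ := DD_mem h1.1
  obtain ⟨T, b1, b2⟩ := DD_mem h2.1
  classical
  have hn : EE dB ∉ S ∪ T := by simp [a1, b1]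
  have c1 := WW_VV (by decide) (a2 _ Finset.subset_union_left hn) (aeval_VV (pol (S ∪ T)) h1)
  have c2 := WW_VV (by decide) (b2 _ Finset.subset_union_right hn) (aeval_VV (pol (S ∪ T)) h2)
  have c3 := Submodule.add_mem _ c1 c2
  rw [← map_add, hsum, DD_apply _ Eg_PB] at c3
  have hc : ∏ e ∈ S ∪ T, (EE dB - e) ≠ 0 := by
    rw [Finset.prod_ne_zero_iff]
    intro e he h0
    exact hn (by rw [sub_eq_zero.mp h0]; exact he)
  have c4 := (Submodule.smul_mem_iff _ hc).mp c3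
  obtain ⟨a, b, hab⟩ := Submodule.mem_span_pair.mp c4
  obtain ⟨r, hr0, hr⟩ := PB_pos 1
  have e1 := ((ev_M1 (j := 1) (by decide)).smul a).add ((ev_M2 (j := 1) (by decide)).smul b)
  rw [hab] at e1
  have e2 := hr.unique e1
  rw [mul_zero, mul_zero, add_zero] at e2
  exact hr0.ne' (by exact_mod_cast e2)

lemma cmon {s : Seed 3 3} (hs : IsSeed exB s) (e : Fin 3 ⊕ Fin 3 → ℕ) :
    IsClusterMonomial exB (∏ i, s.ext i ^ e i) := ⟨s, hs, e, rfl⟩

noncomputable def N1 : Amb 3 3 := cv 1 * zx ^ 5 * zu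
noncomputable def N2 : Amb 3 3 := cv 0 ^ 2 * cv 1 ^ 2 * zx ^ 2 * zq * zu
noncomputable def N3 : Amb 3 3 := cv 2 * zx ^ 5 * zv
noncomputable def N4 : Amb 3 3 := cv 0 ^ 2 * cv 2 ^ 2 * zx ^ 2 * zp * zv

lemma N1_mon : IsClusterMonomial exB N1 := by
  refine ⟨_, is1, Sum.elim ![5, 1, 0] ![0, 1, 0], ?_⟩
  have x0 : (S0.mutate 1).x 0 = zx := by simp [Seed.mutate, zx]
  have x1 : (S0.mutate 1).x 1 = zu := rfl
  simp only [Fintype.prod_sum_type, Fin.prod_univ_three, ext_inl, ext_inr, x0, x1, N1]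
  simp
  ring

lemma N2_mon : IsClusterMonomial exB N2 := by
  refine ⟨_, is1, Sum.elim ![2, 1, 1] ![2, 2, 0], ?_⟩
  have x0 : (S0.mutate 1).x 0 = zx := by simp [Seed.mutate, zx]
  have x1 : (S0.mutate 1).x 1 = zu := rfl
  have x2 : (S0.mutate 1).x 2 = zq := by simp [Seed.mutate, zq]
  simp only [Fintype.prod_sum_type, Fin.prod_univ_three, ext_inl, ext_inr, x0, x1, x2, N2]
  simp
  ring

lemma N3_mon : IsClusterMonomial exB N3 := by
  refine ⟨_, is2, Sum.elim ![5, 0, 1] ![0, 0, 1], ?_⟩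
  have x0 : (S0.mutate 2).x 0 = zx := by simp [Seed.mutate, zx]
  have x2 : (S0.mutate 2).x 2 = zv := rfl
  simp only [Fintype.prod_sum_type, Fin.prod_univ_three, ext_inl, ext_inr, x0, x2, N3]
  simp
  ring

lemma N4_mon : IsClusterMonomial exB N4 := by
  refine ⟨_, is2, Sum.elim ![2, 1, 1] ![2, 0, 2], ?_⟩
  have x0 : (S0.mutate 2).x 0 = zx := by simp [Seed.mutate, zx]
  have x1 : (S0.mutate 2).x 1 = zp := by simp [Seed.mutate, zp]
  have x2 : (S0.mutate 2).x 2 = zv := rfl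
  simp only [Fintype.prod_sum_type, Fin.prod_univ_three, ext_inl, ext_inr, x0, x1, x2, N4]
  simp
  ring

lemma key' : cv 0 ^ 4 * PB = cv 1 * (zp ^ 2 * yu) + cv 2 * (zq ^ 2 * yv)
    - (N1 + 2 * N2 + N3 + 2 * N4) := key_identity

/-- the four cluster monomials are not divisible by `c_0 ^ 4` in the algebra -/
lemma not_div {N N' : Amb 3 3} {k : ℕ} (hk : k < 4) (hN : N = cv 0 ^ k * N')
    (hpos : PP (pz (n := 3) 0) N') {b : Amb 3 3} (hb : b ∈ AA) : cv 0 ^ 4 * b ≠ N := by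
  intro h
  have h0 : (cv 0) ≠ 0 := cv_ne 0
  obtain ⟨v, hv⟩ := alg_ev 0 hb
  obtain ⟨r, hr0, hr⟩ := hpos
  have e : N' = cv 0 * (cv 0 ^ (3 - k) * b) := by
    have hk' : 4 = k + (1 + (3 - k)) := by omega
    rw [hN, hk', pow_add, pow_add, mul_assoc, mul_assoc] at h
    have := mul_left_cancel₀ (pow_ne_zero k h0) h
    rw [← this, pow_one]
  obtain ⟨w, -, hw⟩ := ((NN_inr (n := 3) 0 0).pow (3 - k) : NN _ (cv 0 ^ (3 - k)))
  have e1 := (EvR_self (n := 3) (l := 3) 0).mul (hw.mul hv)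
  have e2 : N' = var (Sum.inr 0) * (cv 0 ^ (3 - k) * b) := e
  have e3 : EvR (pz (n := 3) 0) N' (0 * (w * v)) := by rw [e2]; exact e1
  have := hr.unique e3
  rw [zero_mul] at this
  exact hr0.ne' (by exact_mod_cast this)

end Pool.Agent.Helper96.Clu
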