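import Mathlib

/-!
# Rank three seeds with tropical weights

A `St K` is a labelled coefficient-free seed of rank three over a field `K`, together with four
tropical weight vectors, which mutate by the tropical exchange relation.
-/

namespace Pool.Agent.Helper96.Clu

set_option linter.unusedSectionVars false
set_option linter.unnecessarySeqFocus false

variable {K : Type*} [Field K]

/-- exchange relation in a field -/
def exK (m n : ℤ) (v w u : K) : K :=
  (v ^ (-m).toNat * w ^ n.toNat + v ^ m.toNat * w ^ (-n).toNat) / u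

/-- tropical exchange relation -/
def exZ (m n v w u : ℤ) : ℤ :=
  max (max (-m) 0 * v + max n 0 * w) (max m 0 * v + max (-n) 0 * w) - u

/-- the increment of the opposite arrow -/
def fB (x y : ℤ) : ℤ := max (-x) 0 * max (-y) 0 - max x 0 * max y 0

/-- rank three seeds with weights; `a = b_01`, `b = b_12`, `c = b_20`. -/
@[ext] structure St (K : Type*) where
  a : ℤ
  b : ℤ
  c : ℤ
  g0 : K
  g1 : K
  g2 : K
  d0 : Fin 4 → ℤ
  d1 : Fin 4 → ℤ
  d2 : Fin 4 → ℤ

namespace St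

/-- mutation in direction 0 -/
def m0 (T : St K) : St K :=
  ⟨-T.a, T.b + fB T.a T.c, -T.c, exK T.a T.c T.g1 T.g2 T.g0, T.g1, T.g2,
    fun j => exZ T.a T.c (T.d1 j) (T.d2 j) (T.d0 j), T.d1, T.d2⟩

/-- mutation in direction 1 -/
def m1 (T : St K) : St K :=
  ⟨-T.a, -T.b, T.c + fB T.b T.a, T.g0, exK T.b T.a T.g2 T.g0 T.g1, T.g2,
    T.d0, fun j => exZ T.b T.a (T.d2 j) (T.d0 j) (T.d1 j), T.d2⟩

/-- mutation in direction 2 -/
def m2 (T : St K) : St K :=
  ⟨T.a + fB T.c T.b, -T.b, -T.c, T.g0, T.g1, exK T.c T.b T.g0 T.g1 T.g2,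
    T.d0, T.d1, fun j => exZ T.c T.b (T.d0 j) (T.d1 j) (T.d2 j)⟩

/-- exchange labels 1 and 2 -/
def sw (T : St K) : St K := ⟨-T.c, -T.b, -T.a, T.g0, T.g2, T.g1, T.d0, T.d2, T.d1⟩

/-- reverse all arrows -/
def op (T : St K) : St K := ⟨-T.a, -T.b, -T.c, T.g0, T.g1, T.g2, T.d0, T.d1, T.d2⟩

end St

lemma fB_neg (x y : ℤ) : fB (-x) (-y) = - fB x y := by
  unfold fB; rw [neg_neg, neg_neg]; ring

lemma fB_comm (x y : ℤ) : fB x y = fB y x := by
  unfold fB; ring

lemma fB_zero_left (y : ℤ) : fB 0 y = 0 := by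
  unfold fB; simp

lemma fB_zero_right (y : ℤ) : fB y 0 = 0 := by
  unfold fB; simp

lemma exK_neg (m n : ℤ) (v w u : K) : exK (-m) (-n) v w u = exK m n v w u := by
  unfold exK; rw [neg_neg, neg_neg, add_comm]

lemma exZ_neg (m n v w u : ℤ) : exZ (-m) (-n) v w u = exZ m n v w u := by
  unfold exZ; rw [neg_neg, neg_neg, max_comm]

lemma exK_swap (m n : ℤ) (v w u : K) : exK m n v w u = exK (-n) (-m) w v u := by
  unfold exK; rw [neg_neg, neg_neg]; ring

lemma exZ_swap (m n v w u : ℤ) : exZ m n v w u = exZ (-n) (-m) w v u := by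
  unfold exZ; rw [neg_neg, neg_neg, add_comm (max (-m) 0 * v), add_comm (max m 0 * v)]

/-- a subset of the field closed under addition, multiplication, inversion, not containing 0 -/
structure PosSet (P : K → Prop) : Prop where
  one : P 1
  add : ∀ x y, P x → P y → P (x + y)
  mul : ∀ x y, P x → P y → P (x * y)
  inv : ∀ x, P x → P x⁻¹
  ne : ∀ x, P x → x ≠ 0

lemma PosSet.pow {P : K → Prop} (h : PosSet P) {x : K} (hx : P x) (n : ℕ) : P (x ^ n) := by
  induction n with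
  | zero => rw [pow_zero]; exact h.one
  | succ n ih => rw [pow_succ]; exact h.mul _ _ ih hx

lemma PosSet.num {P : K → Prop} (h : PosSet P) {v w : K} (hv : P v) (hw : P w) (a b c d : ℕ) :
    P (v ^ a * w ^ b + v ^ c * w ^ d) :=
  h.add _ _ (h.mul _ _ (h.pow hv _) (h.pow hw _)) (h.mul _ _ (h.pow hv _) (h.pow hw _))

lemma PosSet.exK {P : K → Prop} (h : PosSet P) {v w u : K} (hv : P v) (hw : P w) (hu : P u)
    (m n : ℤ) : P (exK m n v w u) := by
  unfold Clu.exK
  rw [div_eq_mul_inv]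
  exact h.mul _ _ (h.num hv hw _ _ _ _) (h.inv _ hu)

lemma exK_exK {P : K → Prop} (h : PosSet P) {v w u : K} (hv : P v) (hw : P w) (hu : P u)
    (m n : ℤ) : exK m n v w (exK m n v w u) = u := by
  have h1 := h.ne _ (h.num hv hw (-m).toNat n.toNat m.toNat (-n).toNat)
  have h2 := h.ne _ hu
  unfold exK
  field_simp

lemma exZ_exZ (m n v w u : ℤ) : exZ m n v w (exZ m n v w u) = u := by
  unfold exZ; ring

namespace St

/-- all three variables lie in `P` -/
def Pos (P : K → Prop) (T : St K) : Prop := P T.g0 ∧ P T.g1 ∧ P T.g2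

variable {P : K → Prop}

lemma Pos.m0 (h : PosSet P) {T : St K} (hT : T.Pos P) : T.m0.Pos P :=
  ⟨h.exK hT.2.1 hT.2.2 hT.1 _ _, hT.2.1, hT.2.2⟩

lemma Pos.m1 (h : PosSet P) {T : St K} (hT : T.Pos P) : T.m1.Pos P :=
  ⟨hT.1, h.exK hT.2.2 hT.1 hT.2.1 _ _, hT.2.2⟩

lemma Pos.m2 (h : PosSet P) {T : St K} (hT : T.Pos P) : T.m2.Pos P :=
  ⟨hT.1, hT.2.1, h.exK hT.1 hT.2.1 hT.2.2 _ _⟩

lemma Pos.sw {T : St K} (hT : T.Pos P) : T.sw.Pos P := ⟨hT.1, hT.2.2, hT.2.1⟩

lemma Pos.op {T : St K} (hT : T.Pos P) : T.op.Pos P := hT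

lemma m0_m0 (h : PosSet P) {T : St K} (hT : T.Pos P) : T.m0.m0 = T := by
  obtain ⟨h0, h1, h2⟩ := hT
  have e := exK_exK h h1 h2 h0 T.a T.c
  ext1 <;> simp only [m0, neg_neg, fB_neg, exK_neg, exZ_neg, exZ_exZ, e] <;> ring

lemma m1_m1 (h : PosSet P) {T : St K} (hT : T.Pos P) : T.m1.m1 = T := by
  obtain ⟨h0, h1, h2⟩ := hT
  have e := exK_exK h h2 h0 h1 T.b T.a
  ext1 <;> simp only [m1, neg_neg, fB_neg, exK_neg, exZ_neg, exZ_exZ, e] <;> ring

lemma m2_m2 (h : PosSet P) {T : St K} (hT : T.Pos P) : T.m2.m2 = T := by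
  obtain ⟨h0, h1, h2⟩ := hT
  have e := exK_exK h h0 h1 h2 T.c T.b
  ext1 <;> simp only [m2, neg_neg, fB_neg, exK_neg, exZ_neg, exZ_exZ, e] <;> ring

lemma op_op (T : St K) : T.op.op = T := by
  ext1 <;> simp only [op, neg_neg]

lemma sw_sw (T : St K) : T.sw.sw = T := by
  ext1 <;> simp only [sw, neg_neg]

lemma op_sw (T : St K) : T.sw.op = T.op.sw := rfl

lemma m0_op (T : St K) : T.op.m0 = T.m0.op := by
  ext1 <;> simp only [m0, op, fB_neg, exK_neg, exZ_neg] <;> ring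

lemma m1_op (T : St K) : T.op.m1 = T.m1.op := by
  ext1 <;> simp only [m1, op, fB_neg, exK_neg, exZ_neg] <;> ring

lemma m2_op (T : St K) : T.op.m2 = T.m2.op := by
  ext1 <;> simp only [m2, op, fB_neg, exK_neg, exZ_neg] <;> ring

lemma m0_sw (T : St K) : T.sw.m0 = T.m0.sw := by
  ext1 <;> simp only [m0, sw, neg_neg, fB_neg, fB_comm T.c T.a]
  · ring
  · rw [exK_swap T.a]
  · funext j; rw [exZ_swap T.a]

lemma m1_sw (T : St K) : T.sw.m1 = T.m2.sw := by
  ext1 <;> simp only [m1, m2, sw, neg_neg, fB_neg, fB_comm T.c T.b]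
  · ring
  · rw [exK_swap T.c]
  · funext j; rw [exZ_swap T.c]

lemma m2_sw (T : St K) : T.sw.m2 = T.m1.sw := by
  ext1 <;> simp only [m1, m2, sw, neg_neg, fB_neg, fB_comm T.b T.a]
  · ring
  · rw [exK_swap T.b]
  · funext j; rw [exZ_swap T.b]

/-- mutations at disconnected vertices commute -/
lemma comm02 {T : St K} (hc : T.c = 0) : T.m0.m2 = T.m2.m0 := by
  ext1 <;> simp only [m0, m2, hc, neg_zero, fB_zero_left, fB_zero_right, add_zero, exK, exZ,
    Int.toNat_zero, pow_zero, mul_one, one_mul, max_self, zero_mul, zero_add]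

/-- the pentagon relation -/
lemma pentagon (h : PosSet P) {T : St K} (hT : T.Pos P) (ha : T.a = -3) (hb : T.b = 1)
    (hc : T.c = 0) : T.m2.m1 = T.m1.m2.m1.sw := by
  obtain ⟨h0, h1, h2⟩ := hT
  have e0 := h.ne _ h0
  have e1 := h.ne _ h1
  have e2 := h.ne _ h2
  have e4 := h.ne _ (h.add _ _ h.one (h.mul _ _ h2 (h.pow h0 3)))
  obtain ⟨a, b, c, g0, g1, g2, d0, d1, d2⟩ := T
  simp only at ha hb hc e0 e1 e2 e4
  subst ha hb hc
  ext1
  · simp [m1, m2, sw, fB]
  · simp [m1, m2, sw, fB]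
  · simp [m1, m2, sw, fB]
  · simp [m1, m2, sw, fB]
  · simp [m1, m2, sw, fB, exK]
    field_simp
    ring
  · simp [m1, m2, sw, fB, exK]
    field_simp
    ring
  · simp [m1, m2, sw, fB]
  · funext j
    simp [m1, m2, sw, fB, exZ]
    omega
  · funext j
    simp [m1, m2, sw, fB, exZ]
    omega

end St

end Pool.Agent.Helper96.Clu
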