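import Pool.Agent.Helper96.Clu.Defs
import Pool.Agent.Helper96.Clu.State

/-!
# Values of rational functions at a point and positivity
-/

namespace Pool.Agent.Helper96.Clu

open MvPolynomial

variable {n l : ℕ}

/-- evaluation of polynomials at a real point -/
noncomputable def evp (pt : Fin n ⊕ Fin l → ℝ) : MvPolynomial (Fin n ⊕ Fin l) ℂ →+* ℂ :=
  MvPolynomial.eval (fun i => (pt i : ℂ))

/-- the rational function `f` is defined at `pt` with value `v` -/
def EvR (pt : Fin n ⊕ Fin l → ℝ) (f : Amb n l) (v : ℂ) : Prop :=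
  ∃ a b : MvPolynomial (Fin n ⊕ Fin l) ℂ, evp pt b ≠ 0 ∧
    f * algebraMap _ (Amb n l) b = algebraMap _ (Amb n l) a ∧ v * evp pt b = evp pt a

variable {pt : Fin n ⊕ Fin l → ℝ}

lemma EvR.add {f g : Amb n l} {v w : ℂ} (hf : EvR pt f v) (hg : EvR pt g w) :
    EvR pt (f + g) (v + w) := by
  obtain ⟨a, b, h1, h2, h3⟩ := hf
  obtain ⟨c, d, k1, k2, k3⟩ := hg
  refine ⟨a * d + c * b, b * d, ?_, ?_, ?_⟩
  · rw [map_mul]; exact mul_ne_zero h1 k1
  · rw [map_mul, map_add, map_mul, map_mul, ← h2, ← k2]; ring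
  · rw [map_mul, map_add, map_mul, map_mul, ← h3, ← k3]; ring

lemma EvR.mul {f g : Amb n l} {v w : ℂ} (hf : EvR pt f v) (hg : EvR pt g w) :
    EvR pt (f * g) (v * w) := by
  obtain ⟨a, b, h1, h2, h3⟩ := hf
  obtain ⟨c, d, k1, k2, k3⟩ := hg
  refine ⟨a * c, b * d, ?_, ?_, ?_⟩
  · rw [map_mul]; exact mul_ne_zero h1 k1
  · rw [map_mul, map_mul, ← h2, ← k2]; ring
  · rw [map_mul, map_mul, ← h3, ← k3]; ring

lemma EvR.poly (a : MvPolynomial (Fin n ⊕ Fin l) ℂ) :
    EvR pt (algebraMap _ (Amb n l) a) (evp pt a) :=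
  ⟨a, 1, by rw [map_one]; exact one_ne_zero, by rw [map_one, mul_one], by rw [map_one, mul_one]⟩

lemma EvR.one : EvR pt (1 : Amb n l) 1 := by
  have := EvR.poly (pt := pt) (1 : MvPolynomial (Fin n ⊕ Fin l) ℂ)
  rwa [map_one, map_one] at this

lemma EvR.zero : EvR pt (0 : Amb n l) 0 := by
  have := EvR.poly (pt := pt) (0 : MvPolynomial (Fin n ⊕ Fin l) ℂ)
  rwa [map_zero, map_zero] at this

lemma EvR.var (i : Fin n ⊕ Fin l) : EvR pt (var i) (pt i) := by
  have := EvR.poly (pt := pt) (X i : MvPolynomial (Fin n ⊕ Fin l) ℂ)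
  unfold evp at this
  rwa [eval_X] at this

lemma EvR.scalar (c : ℂ) : EvR pt (algebraMap ℂ (Amb n l) c) c := by
  have := EvR.poly (pt := pt) (C c : MvPolynomial (Fin n ⊕ Fin l) ℂ)
  unfold evp at this
  rw [eval_C] at this
  rwa [IsScalarTower.algebraMap_apply ℂ (MvPolynomial (Fin n ⊕ Fin l) ℂ) (Amb n l)]

lemma EvR.smul {f : Amb n l} {v : ℂ} (c : ℂ) (hf : EvR pt f v) : EvR pt (c • f) (c * v) := by
  rw [Algebra.smul_def]
  exact (EvR.scalar c).mul hf

lemma EvR.inv {f : Amb n l} {v : ℂ} (hf : EvR pt f v) (hv : v ≠ 0) : EvR pt f⁻¹ v⁻¹ := by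
  obtain ⟨a, b, h1, h2, h3⟩ := hf
  have ha : evp pt a ≠ 0 := by rw [← h3]; exact mul_ne_zero hv h1
  have ha' : algebraMap _ (Amb n l) a ≠ 0 := by
    rw [Ne, map_eq_zero_iff _ (IsFractionRing.injective _ _)]
    rintro rfl
    exact ha (map_zero _)
  have hf0 : f ≠ 0 := by
    rintro rfl
    exact ha' (by rw [← h2, zero_mul])
  refine ⟨b, a, ha, ?_, ?_⟩
  · rw [← h2, inv_mul_cancel_left₀ hf0]
  · rw [← h3, inv_mul_cancel_left₀ hv]

lemma EvR.unique {f : Amb n l} {v w : ℂ} (hf : EvR pt f v) (hg : EvR pt f w) : v = w := by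
  obtain ⟨a, b, h1, h2, h3⟩ := hf
  obtain ⟨c, d, k1, k2, k3⟩ := hg
  have h : a * d = c * b := by
    apply IsFractionRing.injective (MvPolynomial (Fin n ⊕ Fin l) ℂ) (Amb n l)
    rw [map_mul, map_mul, ← h2, ← k2]; ring
  have h' := congrArg (evp pt) h
  rw [map_mul, map_mul, ← h3, ← k3] at h'
  have : (v - w) * (evp pt b * evp pt d) = 0 := by linear_combination h'
  rcases mul_eq_zero.mp this with h | h
  · exact sub_eq_zero.mp h
  · exact absurd h (mul_ne_zero h1 k1)

/-- defined at `pt` with positive value -/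
def PP (pt : Fin n ⊕ Fin l → ℝ) (f : Amb n l) : Prop := ∃ r : ℝ, 0 < r ∧ EvR pt f (r : ℂ)

/-- defined at `pt` with nonnegative value -/
def NN (pt : Fin n ⊕ Fin l → ℝ) (f : Amb n l) : Prop := ∃ r : ℝ, 0 ≤ r ∧ EvR pt f (r : ℂ)

lemma PP.nn {f : Amb n l} (h : PP pt f) : NN pt f := by
  obtain ⟨r, h1, h2⟩ := h
  exact ⟨r, h1.le, h2⟩

lemma NN.mul {f g : Amb n l} (h : NN pt f) (k : NN pt g) : NN pt (f * g) := by
  obtain ⟨r, h1, h2⟩ := h
  obtain ⟨t, k1, k2⟩ := k
  exact ⟨r * t, mul_nonneg h1 k1, by push_cast; exact h2.mul k2⟩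

lemma NN.pow {f : Amb n l} (h : NN pt f) (k : ℕ) : NN pt (f ^ k) := by
  induction k with
  | zero => rw [pow_zero]; exact ⟨1, zero_le_one, by push_cast; exact EvR.one⟩
  | succ k ih => rw [pow_succ]; exact ih.mul h

lemma PP.mul {f g : Amb n l} (h : PP pt f) (k : PP pt g) : PP pt (f * g) := by
  obtain ⟨r, h1, h2⟩ := h
  obtain ⟨t, k1, k2⟩ := k
  exact ⟨r * t, mul_pos h1 k1, by push_cast; exact h2.mul k2⟩

lemma PP.add_nn {f g : Amb n l} (h : PP pt f) (k : NN pt g) : PP pt (f + g) := by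
  obtain ⟨r, h1, h2⟩ := h
  obtain ⟨t, k1, k2⟩ := k
  exact ⟨r + t, add_pos_of_pos_of_nonneg h1 k1, by push_cast; exact h2.add k2⟩

lemma PP.inv {f : Amb n l} (h : PP pt f) : PP pt f⁻¹ := by
  obtain ⟨r, h1, h2⟩ := h
  refine ⟨r⁻¹, inv_pos.mpr h1, ?_⟩
  push_cast
  exact h2.inv (by exact_mod_cast h1.ne')

lemma PP.ne {f : Amb n l} (h : PP pt f) : f ≠ 0 := by
  rintro rfl
  obtain ⟨r, h1, h2⟩ := h
  have := h2.unique EvR.zero
  exact h1.ne' (by exact_mod_cast this)

lemma posSet_PP (pt : Fin n ⊕ Fin l → ℝ) : PosSet (PP pt) where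
  one := ⟨1, one_pos, by push_cast; exact EvR.one⟩
  add _ _ h k := h.add_nn k.nn
  mul _ _ h k := h.mul k
  inv _ h := h.inv
  ne _ h := h.ne

lemma PP.pow {f : Amb n l} (h : PP pt f) (k : ℕ) : PP pt (f ^ k) := (posSet_PP pt).pow h k

lemma PP.zpow {f : Amb n l} (h : PP pt f) (k : ℤ) : PP pt (f ^ k) := by
  rcases k with k | k
  · rw [Int.ofNat_eq_natCast, zpow_natCast]; exact h.pow k
  · rw [zpow_negSucc]; exact (h.pow _).inv

/-- the point with coordinate `j` of the coefficients zero, and all others one -/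
noncomputable def pz (j : Fin l) : Fin n ⊕ Fin l → ℝ := fun i => if i = Sum.inr j then 0 else 1

lemma PP_inl (j : Fin l) (i : Fin n) : PP (pz j) (var (Sum.inl i) : Amb n l) :=
  ⟨1, one_pos, by
    have := EvR.var (pt := pz (n := n) j) (Sum.inl i)
    simpa [pz] using this⟩

lemma PP_inr {j j' : Fin l} (h : j' ≠ j) : PP (pz j) (var (Sum.inr j') : Amb n l) :=
  ⟨1, one_pos, by
    have := EvR.var (pt := pz (n := n) j) (Sum.inr j')
    simpa [pz, h] using this⟩

lemma EvR_self (j : Fin l) : EvR (pz j) (var (Sum.inr j) : Amb n l) 0 := by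
  have := EvR.var (pt := pz (n := n) j) (Sum.inr j)
  simpa [pz] using this

lemma NN_inr (j j' : Fin l) : NN (pz j) (var (Sum.inr j') : Amb n l) := by
  rcases eq_or_ne j' j with rfl | h
  · exact ⟨0, le_refl _, by simpa using EvR_self (n := n) j'⟩
  · exact (PP_inr h).nn

lemma prod_NN {ι : Type*} (s : Finset ι) (f : ι → Amb n l) (h : ∀ i ∈ s, NN pt (f i)) :
    NN pt (∏ i ∈ s, f i) := by
  classical
  induction s using Finset.induction_on with
  | empty => rw [Finset.prod_empty]; exact ⟨1, zero_le_one, by push_cast; exact EvR.one⟩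
  | insert a s ha ih =>
    rw [Finset.prod_insert ha]
    exact (h a (Finset.mem_insert_self _ _)).mul
      (ih fun i hi => h i (Finset.mem_insert_of_mem hi))

lemma prod_PP {ι : Type*} (s : Finset ι) (f : ι → Amb n l) (h : ∀ i ∈ s, PP pt (f i)) :
    PP pt (∏ i ∈ s, f i) := by
  classical
  induction s using Finset.induction_on with
  | empty => rw [Finset.prod_empty]; exact (posSet_PP pt).one
  | insert a s ha ih =>
    rw [Finset.prod_insert ha]
    exact (h a (Finset.mem_insert_self _ _)).mul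
      (ih fun i hi => h i (Finset.mem_insert_of_mem hi))

/-- cluster variables are defined and positive at the points `pz j` -/
lemma seed_pos {B : Fin n ⊕ Fin l → Fin n → ℤ} (j : Fin l) {s : Seed n l} (hs : IsSeed B s) :
    ∀ i, PP (pz j) (s.x i) := by
  induction hs with
  | init => exact fun i => PP_inl j i
  | step s k _ ih =>
    have extN : ∀ i, NN (pz j) (s.ext i) := by
      rintro (i | j')
      · exact (ih i).nn
      · exact NN_inr j j'
    have extP : ∀ i, i ≠ Sum.inr j → PP (pz j) (s.ext i) := by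
      rintro (i | j') h
      · exact ih i
      · exact PP_inr (fun e => h (by rw [e]))
    have prN : ∀ e : Fin n ⊕ Fin l → ℕ, NN (pz j) (∏ i, s.ext i ^ e i) :=
      fun e => prod_NN _ _ fun i _ => (extN i).pow _
    have prP : ∀ e : Fin n ⊕ Fin l → ℕ, e (Sum.inr j) = 0 → PP (pz j) (∏ i, s.ext i ^ e i) := by
      intro e he
      apply prod_PP
      intro i _
      rcases eq_or_ne i (Sum.inr j) with rfl | hi
      · rw [he, pow_zero]; exact (posSet_PP _).one
      · exact (extP i hi).pow _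
    intro i
    rcases eq_or_ne i k with rfl | hik
    · simp only [Seed.mutate, Function.update_self]
      rw [div_eq_mul_inv]
      refine PP.mul ?_ (ih i).inv
      rcases le_total 0 (s.B (Sum.inr j) i) with h | h
      · rw [add_comm]
        exact (prP _ (by simpa using h)).add_nn (prN _)
      · exact (prP _ (by simpa using h)).add_nn (prN _)
    · simp only [Seed.mutate, Function.update_of_ne hik]
      exact ih i

/-- elements of the cluster algebra are defined at the points `pz j` -/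
lemma alg_ev {B : Fin n ⊕ Fin l → Fin n → ℤ} (j : Fin l) {f : Amb n l}
    (hf : f ∈ clusterAlgebra B) : ∃ v, EvR (pz j) f v := by
  unfold clusterAlgebra at hf
  induction hf using Algebra.adjoin_induction with
  | mem x hx =>
    rcases hx with ⟨s, hs, i, rfl⟩ | ⟨j', rfl⟩
    · obtain ⟨r, -, h⟩ := seed_pos j hs i
      exact ⟨_, h⟩
    · obtain ⟨r, -, h⟩ := NN_inr (n := n) j j'
      exact ⟨_, h⟩
  | algebraMap c => exact ⟨c, EvR.scalar c⟩
  | add x y _ _ hx hy =>
    obtain ⟨v, hv⟩ := hx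
    obtain ⟨w, hw⟩ := hy
    exact ⟨_, hv.add hw⟩
  | mul x y _ _ hx hy =>
    obtain ⟨v, hv⟩ := hx
    obtain ⟨w, hw⟩ := hy
    exact ⟨_, hv.mul hw⟩

end Pool.Agent.Helper96.Clu
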