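import Pool.Agent.Helper96.Clu.Link
import Pool.Agent.Helper96.Clu.Eval

/-!
# The example: classification of its seeds
-/

namespace Pool.Agent.Helper96.Clu

open St

def dX : Fin 4 → ℤ := ![1, 0, 0, 1]
def dP : Fin 4 → ℤ := ![1, 0, -1, 3]
def dQ : Fin 4 → ℤ := ![1, -1, 0, 3]

/-- the initial weighted seed -/
noncomputable def t0 : St (Amb 3 3) where
  a := 3
  b := 1
  c := 3
  g0 := var (Sum.inl 0) * (cm cv dX)⁻¹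
  g1 := var (Sum.inl 1) * (cm cv dP)⁻¹
  g2 := var (Sum.inl 2) * (cm cv dQ)⁻¹
  d0 := dX
  d1 := dP
  d2 := dQ

lemma rel_init : Rel (initSeed exB) t0 := by
  constructor
  · rfl
  · rfl
  · rfl
  · rfl
  · rfl
  · rfl
  · rfl
  · rfl
  · rfl
  · intro j; fin_cases j <;> rfl
  · intro j; fin_cases j <;> rfl
  · intro j; fin_cases j <;> rfl
  · simp only [initSeed, t0]; rw [inv_mul_cancel_right₀ (cm_ne cv_ne _)]
  · simp only [initSeed, t0]; rw [inv_mul_cancel_right₀ (cm_ne cv_ne _)]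
  · simp only [initSeed, t0]; rw [inv_mul_cancel_right₀ (cm_ne cv_ne _)]

/-- the seven small cluster variables -/
def Sm (v : Amb 3 3) (d : Fin 4 → ℤ) : Prop :=
  (v = t0.g0 ∧ d = t0.d0) ∨ (v = t0.g1 ∧ d = t0.d1) ∨ (v = t0.g2 ∧ d = t0.d2) ∨
  (v = t0.m1.g1 ∧ d = t0.m1.d1) ∨ (v = t0.m2.g2 ∧ d = t0.m2.d2) ∨
  (v = t0.m1.m2.g2 ∧ d = t0.m1.m2.d2) ∨ (v = t0.m0.g0 ∧ d = t0.m0.d0)

lemma d_4 : t0.m1.d1 = ![2, 0, 1, 0] := by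
  funext j; fin_cases j <;> decide

lemma d_1 : t0.m2.d2 = ![2, 1, 0, 0] := by
  funext j; fin_cases j <;> decide

lemma d_5 : t0.m1.m2.d2 = ![1, 1, 1, -3] := by
  funext j; fin_cases j <;> decide

lemma d_Y : t0.m0.d0 = ![2, 0, 0, 8] := by
  funext j; fin_cases j <;> decide

lemma Sm_nonneg : ∀ v d, Sm v d → 0 ≤ d 0 := by
  intro v d h
  rcases h with ⟨-, rfl⟩ | ⟨-, rfl⟩ | ⟨-, rfl⟩ | ⟨-, rfl⟩ | ⟨-, rfl⟩ | ⟨-, rfl⟩ | ⟨-, rfl⟩ <;>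
    decide

/-- the all ones point -/
def p1 : Fin 3 ⊕ Fin 3 → ℝ := fun _ => 1

lemma PP_p1 (i : Fin 3 ⊕ Fin 3) : PP p1 (var i : Amb 3 3) :=
  ⟨1, one_pos, EvR.var i⟩

lemma PP_cm (d : Fin 4 → ℤ) : PP p1 (cm cv d) :=
  (((PP_p1 _).zpow _).mul ((PP_p1 _).zpow _)).mul ((PP_p1 _).zpow _)

lemma t0_pos : t0.Pos (PP p1) :=
  ⟨(PP_p1 _).mul (PP_cm _).inv, (PP_p1 _).mul (PP_cm _).inv, (PP_p1 _).mul (PP_cm _).inv⟩

lemma hP : PosSet (PP p1 : Amb 3 3 → Prop) := posSet_PP _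

/-- start of the first chain -/
noncomputable def k0 : St (Amb 3 3) := t0.m1.m2

lemma k0_pos : k0.Pos (PP p1) := (t0_pos.m1 hP).m2 hP

lemma k0_m2 : k0.m2 = t0.m1 := m2_m2 hP (t0_pos.m1 hP)

lemma k0_m2_m1 : k0.m2.m1 = t0 := by rw [k0_m2]; exact m1_m1 hP t0_pos

lemma k0_abc : k0.a = -3 ∧ k0.b = 1 ∧ k0.c = 0 := by decide

lemma k0_C : k0.m1.m2.m1 = t0.sw := by
  have h := pentagon hP k0_pos k0_abc.1 k0_abc.2.1 k0_abc.2.2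
  rw [k0_m2_m1] at h
  rw [h, sw_sw]

lemma k0_S : k0.m1.m2 = t0.m2.sw := by
  have h : k0.m1.m2.m1.m1 = k0.m1.m2 := m1_m1 hP (((k0_pos).m1 hP).m2 hP)
  rw [← h, k0_C, m1_sw]

lemma k0_M : k0.m1 = t0.m2.m1.sw := by
  have h : k0.m1.m2.m2 = k0.m1 := m2_m2 hP (k0_pos.m1 hP)
  rw [← h, k0_S, m2_sw]

lemma s0 : SBp Sm t0.g0 t0.d0 := Or.inl (Or.inl ⟨rfl, rfl⟩)
lemma s1 : SBp Sm t0.g1 t0.d1 := Or.inl (Or.inr (Or.inl ⟨rfl, rfl⟩))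
lemma s2 : SBp Sm t0.g2 t0.d2 := Or.inl (Or.inr (Or.inr (Or.inl ⟨rfl, rfl⟩)))
lemma s3 : SBp Sm t0.m1.g1 t0.m1.d1 := Or.inl (Or.inr (Or.inr (Or.inr (Or.inl ⟨rfl, rfl⟩))))
lemma s4 : SBp Sm t0.m2.g2 t0.m2.d2 :=
  Or.inl (Or.inr (Or.inr (Or.inr (Or.inr (Or.inl ⟨rfl, rfl⟩)))))
lemma s5 : SBp Sm t0.m1.m2.g2 t0.m1.m2.d2 :=
  Or.inl (Or.inr (Or.inr (Or.inr (Or.inr (Or.inr (Or.inl ⟨rfl, rfl⟩))))))
lemma s6 : SBp Sm t0.m0.g0 t0.m0.d0 :=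
  Or.inl (Or.inr (Or.inr (Or.inr (Or.inr (Or.inr (Or.inr ⟨rfl, rfl⟩))))))

lemma sbK : k0.SB Sm := ⟨s0, s3, s5⟩

lemma sbM : k0.m1.SB Sm := by
  refine ⟨s0, ?_, s5⟩
  rw [k0_M]
  exact s4

lemma sbS : k0.m1.m2.SB Sm := by
  rw [k0_S]
  exact ⟨s0, s4, s1⟩

lemma sbC : k0.m1.m2.m1.SB Sm := by
  rw [k0_C]
  exact ⟨s0, s2, s1⟩

lemma sbD : k0.m2.SB Sm := by
  rw [k0_m2]
  exact ⟨s0, s3, s2⟩

lemma core0 : Core (PP p1) Sm k0 where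
  a := k0_abc.1
  b := k0_abc.2.1
  c := k0_abc.2.2
  pos := k0_pos
  sK := sbK
  sM := sbM
  sS := sbS
  sC := sbC
  sD := sbD
  fork := by
    rw [k0_C, m0_sw]
    unfold Fork0 FI
    decide
  forkS := by
    rw [k0_C, m0_sw]
    exact ⟨s6, s2, s1⟩
  inv := by
    change (k0.m1.m2.m0).Inv
    rw [k0_S, m0_sw]
    unfold St.Inv
    decide

/-- start of the second chain -/
noncomputable def k0' : St (Amb 3 3) := k0.m1.op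

lemma k0'_M : k0'.m1 = k0.op := by
  unfold k0'
  rw [m1_op, m1_m1 hP k0_pos]

lemma core1 : Core (PP p1) Sm k0' where
  a := by decide
  b := by decide
  c := by decide
  pos := (k0_pos.m1 hP).op
  sK := sbM
  sM := by rw [k0'_M]; exact sbK
  sS := by rw [k0'_M, m2_op]; exact sbD
  sC := by rw [k0'_M, m2_op, m1_op, k0_m2_m1]; exact ⟨s0, s1, s2⟩
  sD := by unfold k0'; rw [m2_op]; exact sbS
  fork := by
    rw [k0'_M, m2_op, m1_op, k0_m2_m1, m0_op]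
    unfold Fork0 FI
    decide
  forkS := by
    rw [k0'_M, m2_op, m1_op, k0_m2_m1, m0_op]
    exact ⟨s6, s1, s2⟩
  inv := by
    change (k0'.m1.m2.m0).Inv
    rw [k0'_M, m2_op, k0_m2, m0_op]
    unfold St.Inv
    decide

lemma good_t0 : Good Sm k0 k0' t0 := by
  have h : Good Sm k0 k0' k0 := .base _ ⟨0, Or.inl rfl⟩
  have h2 := (good_closed hP Sm_nonneg core0 core1 rfl h).2.2
  have h3 := (good_closed hP Sm_nonneg core0 core1 rfl h2).2.1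
  rwa [k0_m2_m1] at h3

end Pool.Agent.Helper96.Clu
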