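import Mathlib

/-!
# Cluster algebras of geometric type: definitions

Definitions used in the hand-in for problem `MP_b29d84_al`.  A cluster algebra of geometric type
with `n` mutable and `l` coefficient variables is given by an `(n + l) × n` integer matrix, whose
rows are indexed here by `Fin n ⊕ Fin l` (`Sum.inl i` for the mutable variable `i`, `Sum.inr j` for
the coefficient variable `j`); so `m = n + l`.
-/

namespace Pool.Agent.Helper96.Clu

open MvPolynomial

/-- The ambient field `ℂ(x_1, …, x_m)` of rational functions in the `m = n + l` variables. -/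
abbrev Amb (n l : ℕ) : Type := FractionRing (MvPolynomial (Fin n ⊕ Fin l) ℂ)

/-- The initial variable with index `i`, as an element of the ambient field. -/
noncomputable def var {n l : ℕ} (i : Fin n ⊕ Fin l) : Amb n l :=
  algebraMap (MvPolynomial (Fin n ⊕ Fin l) ℂ) (Amb n l) (X i)

/-- A (labelled) seed: the mutable variables `x 0, …, x (n-1)` and the extended exchange matrix.
The coefficient variables never change, so they are not part of the data. -/
structure Seed (n l : ℕ) where
  /-- the mutable variables of the seed -/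
  x : Fin n → Amb n l
  /-- the extended exchange matrix, with `m = n + l` rows and `n` columns -/
  B : Fin n ⊕ Fin l → Fin n → ℤ

/-- The variables of the extended cluster of a seed: mutable ones and coefficient ones. -/
noncomputable def Seed.ext {n l : ℕ} (s : Seed n l) : Fin n ⊕ Fin l → Amb n l :=
  Sum.elim s.x (fun j => var (Sum.inr j))

/-- Matrix mutation in direction `k`: `b'_ij = -b_ij` if `i = k` or `j = k`, and otherwise
`b'_ij = b_ij + [b_ik]₊ [b_kj]₊ - [-b_ik]₊ [-b_kj]₊`, where `[b]₊ = max b 0`. -/
def mutB {n l : ℕ} (B : Fin n ⊕ Fin l → Fin n → ℤ) (k : Fin n) : Fin n ⊕ Fin l → Fin n → ℤ :=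
  fun i j =>
    if i = Sum.inl k ∨ j = k then - B i j
    else B i j + (max (B i k) 0 * max (B (Sum.inl k) j) 0
      - max (- B i k) 0 * max (- B (Sum.inl k) j) 0)

/-- Seed mutation in direction `k`; the new variable `x_k'` is given by the exchange relation
`x_k x_k' = ∏ x_i ^ [b_ik]₊ + ∏ x_i ^ [-b_ik]₊`, the products being over the extended cluster. -/
noncomputable def Seed.mutate {n l : ℕ} (s : Seed n l) (k : Fin n) : Seed n l where
  x := Function.update s.x k
    ((∏ i, s.ext i ^ (s.B i k).toNat + ∏ i, s.ext i ^ (- s.B i k).toNat) / s.x k)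
  B := mutB s.B k

/-- The initial seed with extended exchange matrix `B`. -/
noncomputable def initSeed {n l : ℕ} (B : Fin n ⊕ Fin l → Fin n → ℤ) : Seed n l where
  x := fun i => var (Sum.inl i)
  B := B

/-- `IsSeed B s`: the seed `s` is obtained from the initial seed with matrix `B` by finitely many
mutations. -/
inductive IsSeed {n l : ℕ} (B : Fin n ⊕ Fin l → Fin n → ℤ) : Seed n l → Prop
  | init : IsSeed B (initSeed B)
  | step (s : Seed n l) (k : Fin n) : IsSeed B s → IsSeed B (s.mutate k)

/-- `z` is a cluster variable. -/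
def IsClusterVar {n l : ℕ} (B : Fin n ⊕ Fin l → Fin n → ℤ) (z : Amb n l) : Prop :=
  ∃ s, IsSeed B s ∧ ∃ i, s.x i = z

/-- The cluster algebra: the `ℂ`-subalgebra of the ambient field generated by all cluster variables
and all coefficient variables (whose inverses are not adjoined). -/
noncomputable def clusterAlgebra {n l : ℕ} (B : Fin n ⊕ Fin l → Fin n → ℤ) :
    Subalgebra ℂ (Amb n l) :=
  Algebra.adjoin ℂ ({z | IsClusterVar B z} ∪ Set.range (fun j : Fin l => var (Sum.inr j)))

/-- `z` is a cluster monomial: a monomial in the elements of one extended cluster. -/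
def IsClusterMonomial {n l : ℕ} (B : Fin n ⊕ Fin l → Fin n → ℤ) (z : Amb n l) : Prop :=
  ∃ s, IsSeed B s ∧ ∃ e : Fin n ⊕ Fin l → ℕ, z = ∏ i, s.ext i ^ e i

/-- Two cluster variables are compatible if one cluster contains both. -/
def Compatible {n l : ℕ} (B : Fin n ⊕ Fin l → Fin n → ℤ) (y z : Amb n l) : Prop :=
  ∃ s, IsSeed B s ∧ (∃ i, s.x i = y) ∧ ∃ j, s.x j = z

/-- `S` is an additive basis of the cluster algebra: a basis of it as a complex vector space. -/
def IsAdditiveBasis {n l : ℕ} (B : Fin n ⊕ Fin l → Fin n → ℤ) (S : Set (Amb n l)) : Prop :=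
  LinearIndepOn ℂ id S ∧ Submodule.span ℂ S = Subalgebra.toSubmodule (clusterAlgebra B)

/-- Property 1: every cluster monomial is an element of `S`. -/
def Prop1 {n l : ℕ} (B : Fin n ⊕ Fin l → Fin n → ℤ) (S : Set (Amb n l)) : Prop :=
  ∀ z, IsClusterMonomial B z → z ∈ S

/-- Property 2: cluster variables `y`, `z` are compatible if and only if `y * z ∈ S`. -/
def Prop2 {n l : ℕ} (B : Fin n ⊕ Fin l → Fin n → ℤ) (S : Set (Amb n l)) : Prop :=
  ∀ y z, IsClusterVar B y → IsClusterVar B z → (Compatible B y z ↔ y * z ∈ S)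

/-- Property 3: the product of a coefficient variable and an element of `S` is in `S`. -/
def Prop3 {n l : ℕ} (S : Set (Amb n l)) : Prop :=
  ∀ (j : Fin l), ∀ b ∈ S, var (Sum.inr j) * b ∈ S

/-- Property 4: if `F` is a finite subset of `S` such that the product of any two distinct
elements of `F` is in `S`, then the product of all elements of `F` is in `S`. -/
def Prop4 {n l : ℕ} (S : Set (Amb n l)) : Prop :=
  ∀ F : Finset (Amb n l), (∀ b ∈ F, b ∈ S) → (∀ b ∈ F, ∀ b' ∈ F, b ≠ b' → b * b' ∈ S) →
    ∏ b ∈ F, b ∈ S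

/-- The top `n × n` block of `B` is skew-symmetrizable. -/
def SkewSymmetrizable {n l : ℕ} (B : Fin n ⊕ Fin l → Fin n → ℤ) : Prop :=
  ∃ d : Fin n → ℤ, (∀ i, 0 < d i) ∧
    ∀ i j, d i * B (Sum.inl i) j = - (d j * B (Sum.inl j) i)

/-- Question Q1: every cluster algebra of geometric type has an additive basis with
properties 1-4. -/
def Q1 : Prop :=
  ∀ (n l : ℕ) (B : Fin n ⊕ Fin l → Fin n → ℤ), SkewSymmetrizable B →
    ∃ S : Set (Amb n l), IsAdditiveBasis B S ∧ Prop1 B S ∧ Prop2 B S ∧ Prop3 S ∧ Prop4 S

/-- The `6 × 3` extended exchange matrix of the counterexample.  Its rows are, in this order, those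
of the three mutable variables and those of the three coefficient variables. -/
def exB : Fin 3 ⊕ Fin 3 → Fin 3 → ℤ :=
  Sum.elim ![![0, 3, -3], ![-3, 0, 1], ![3, -1, 0]] ![![0, -2, 2], ![3, -1, 0], ![-3, 0, 1]]

end Pool.Agent.Helper96.Clu
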