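import Pool.Agent.Helper96.Clu.Formulas

/-!
# The graded component and the contradiction
-/

namespace Pool.Agent.Helper96.Clu

open St

section inj

/-- rational version of `EE` -/
noncomputable def EQ (d : Fin 4 → ℤ) : ℚ := 3 ^ d 0 * 5 ^ d 1 * 7 ^ d 2 * 2 ^ d 3

lemma EE_eq (d : Fin 4 → ℤ) : EE d = ((EQ d : ℚ) : ℂ) := by
  unfold EE EQ; push_cast; rfl

lemma val_prime {p r : ℕ} [Fact p.Prime] [Fact r.Prime] (h : p ≠ r) (k : ℤ) :
    padicValRat p ((r : ℚ) ^ k) = 0 := by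
  rw [padicValRat.zpow, padicValRat.of_nat, padicValNat_primes h]; simp

lemma val_self {p : ℕ} [Fact p.Prime] (k : ℤ) : padicValRat p ((p : ℚ) ^ k) = k := by
  rw [padicValRat.zpow, padicValRat.self (Fact.out : p.Prime).one_lt, mul_one]

instance : Fact (Nat.Prime 5) := ⟨by norm_num⟩
instance : Fact (Nat.Prime 7) := ⟨by norm_num⟩

lemma EQ_val (p : ℕ) [Fact p.Prime] (d : Fin 4 → ℤ) :
    padicValRat p (EQ d) = padicValRat p (((3 : ℕ) : ℚ) ^ d 0)
      + padicValRat p (((5 : ℕ) : ℚ) ^ d 1)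
      + padicValRat p (((7 : ℕ) : ℚ) ^ d 2) + padicValRat p (((2 : ℕ) : ℚ) ^ d 3) := by
  have h3 : (((3 : ℕ) : ℚ)) ^ d 0 ≠ 0 := zpow_ne_zero _ (by norm_num)
  have h5 : (((5 : ℕ) : ℚ)) ^ d 1 ≠ 0 := zpow_ne_zero _ (by norm_num)
  have h7 : (((7 : ℕ) : ℚ)) ^ d 2 ≠ 0 := zpow_ne_zero _ (by norm_num)
  have h2 : (((2 : ℕ) : ℚ)) ^ d 3 ≠ 0 := zpow_ne_zero _ (by norm_num)
  rw [← padicValRat.mul h3 h5, ← padicValRat.mul (mul_ne_zero h3 h5) h7,
    ← padicValRat.mul (mul_ne_zero (mul_ne_zero h3 h5) h7) h2]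
  rfl

lemma EE_inj {d d' : Fin 4 → ℤ} (h : EE d = EE d') : d = d' := by
  rw [EE_eq, EE_eq] at h
  have h' : EQ d = EQ d' := by exact_mod_cast h
  have a0 := congrArg (padicValRat 3) h'
  have a1 := congrArg (padicValRat 5) h'
  have a2 := congrArg (padicValRat 7) h'
  have a3 := congrArg (padicValRat 2) h'
  rw [EQ_val, EQ_val] at a0 a1 a2 a3
  rw [val_self, val_prime (by norm_num), val_prime (by norm_num), val_prime (by norm_num),
    val_self, val_prime (by norm_num), val_prime (by norm_num), val_prime (by norm_num)] at a0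
  rw [val_prime (by norm_num), val_self, val_prime (by norm_num), val_prime (by norm_num),
    val_prime (by norm_num), val_self, val_prime (by norm_num), val_prime (by norm_num)] at a1
  rw [val_prime (by norm_num), val_prime (by norm_num), val_self, val_prime (by norm_num),
    val_prime (by norm_num), val_prime (by norm_num), val_self, val_prime (by norm_num)] at a2
  rw [val_prime (by norm_num), val_prime (by norm_num), val_prime (by norm_num), val_self,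
    val_prime (by norm_num), val_prime (by norm_num), val_prime (by norm_num), val_self] at a3
  funext j
  fin_cases j
  · simpa using a0
  · simpa using a1
  · simpa using a2
  · simpa using a3

end inj

/-- generators of the cluster algebra -/
def Gs : Set (Amb 3 3) := {z | IsClusterVar exB z} ∪ Set.range (fun j : Fin 3 => var (Sum.inr j))

/-- monomials in the small generators -/
noncomputable def mono (e : Fin 10 → ℕ) : Amb 3 3 :=
  zx ^ e 0 * zp ^ e 1 * zq ^ e 2 * zv ^ e 3 * zu ^ e 4 * zw ^ e 5 * zy ^ e 6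
    * cv 0 ^ e 7 * cv 1 ^ e 8 * cv 2 ^ e 9

/-- degree of a monomial in the small generators -/
def dg (e : Fin 10 → ℕ) : Fin 4 → ℤ :=
  ![e 0 + e 1 + e 2 + 2 * e 3 + 2 * e 4 + e 5 + 2 * e 6 + e 7,
    - e 2 + e 3 + e 5 + e 8,
    - e 1 + e 4 + e 5 + e 9,
    e 0 + 3 * e 1 + 3 * e 2 - 3 * e 5 + 8 * e 6]

lemma mono_mul (e f : Fin 10 → ℕ) : mono e * mono f = mono (e + f) := by
  unfold mono
  simp only [Pi.add_apply, pow_add]
  ring

lemma dg_add (e f : Fin 10 → ℕ) : dg (e + f) = dg e + dg f := by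
  funext j
  fin_cases j <;> simp [dg] <;> ring

/-- homogeneous element which is big or a small monomial -/
def MD (m : Amb 3 3) : Prop :=
  ∃ d, Eg m (EE d) ∧ 0 ≤ d 0 ∧ (4 ≤ d 0 ∨ ∃ e, m = mono e ∧ d = dg e)

lemma EE_add (d d' : Fin 4 → ℤ) : EE (d + d') = EE d * EE d' := by
  unfold EE
  simp only [Pi.add_apply]
  rw [zpow_add₀ (by norm_num), zpow_add₀ (by norm_num), zpow_add₀ (by norm_num),
    zpow_add₀ (by norm_num)]
  ring

lemma MD.mul {m m' : Amb 3 3} (h : MD m) (h' : MD m') : MD (m * m') := by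
  obtain ⟨d, h1, h2, h3⟩ := h
  obtain ⟨d', k1, k2, k3⟩ := h'
  refine ⟨d + d', ?_, by simpa using add_nonneg h2 k2, ?_⟩
  · rw [EE_add]; exact h1.mul k1
  · rcases h3 with h3 | ⟨e, rfl, rfl⟩
    · left; simp only [Pi.add_apply]; omega
    · rcases k3 with k3 | ⟨f, rfl, rfl⟩
      · left; simp only [Pi.add_apply]; omega
      · right; exact ⟨e + f, mono_mul _ _, (dg_add _ _).symm⟩

lemma MD.one : MD 1 := by
  refine ⟨0, ?_, le_refl _, Or.inr ⟨0, ?_, ?_⟩⟩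
  · have : EE 0 = 1 := by simp [EE]
    rw [this]; exact Eg.one
  · simp [mono]
  · funext j; fin_cases j <;> simp [dg]

lemma MD.gen {z : Amb 3 3} (hz : z ∈ Gs) : MD z := by
  rcases hz with hz | ⟨j, rfl⟩
  · obtain ⟨g, d, h1, h2, h3⟩ := var_all hz
    rcases h2 with h2 | h2
    · refine ⟨d, h3, Sm_nonneg _ _ h2, Or.inr ?_⟩
      rcases h2 with ⟨rfl, rfl⟩ | ⟨rfl, rfl⟩ | ⟨rfl, rfl⟩ | ⟨rfl, rfl⟩ | ⟨rfl, rfl⟩ |
        ⟨rfl, rfl⟩ | ⟨rfl, rfl⟩
      · refine ⟨![1, 0, 0, 0, 0, 0, 0, 0, 0, 0], ?_, ?_⟩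
        · rw [h1, ← rel_init.x0]; simp [mono, zx, S0]
        · funext j; fin_cases j <;> decide
      · refine ⟨![0, 1, 0, 0, 0, 0, 0, 0, 0, 0], ?_, ?_⟩
        · rw [h1, ← rel_init.x1]; simp [mono, zp, S0]
        · funext j; fin_cases j <;> decide
      · refine ⟨![0, 0, 1, 0, 0, 0, 0, 0, 0, 0], ?_, ?_⟩
        · rw [h1, ← rel_init.x2]; simp [mono, zq, S0]
        · funext j; fin_cases j <;> decide
      · refine ⟨![0, 0, 0, 0, 1, 0, 0, 0, 0, 0], ?_, ?_⟩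
        · rw [h1, ← rel_init.mut1.x1]; simp [mono, zu, S0]
        · rw [d_4]; funext j; fin_cases j <;> decide
      · refine ⟨![0, 0, 0, 1, 0, 0, 0, 0, 0, 0], ?_, ?_⟩
        · rw [h1, ← rel_init.mut2.x2]; simp [mono, zv, S0]
        · rw [d_1]; funext j; fin_cases j <;> decide
      · refine ⟨![0, 0, 0, 0, 0, 1, 0, 0, 0, 0], ?_, ?_⟩
        · rw [h1, ← rel_init.mut1.mut2.x2]; simp [mono, zw, S0]
        · rw [d_5]; funext j; fin_cases j <;> decide
      · refine ⟨![0, 0, 0, 0, 0, 0, 1, 0, 0, 0], ?_, ?_⟩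
        · rw [h1, ← rel_init.mut0.x0]; simp [mono, zy, S0]
        · rw [d_Y]; funext j; fin_cases j <;> decide
    · exact ⟨d, h3, by omega, Or.inl h2⟩
  · have key : ∀ (j : Fin 3) (d : Fin 4 → ℤ), sf (Sum.inr j) = EE d → Eg (cv j) (EE d) := by
      intro j d h; rw [← h]; exact Eg_var _
    fin_cases j
    · refine ⟨![1, 0, 0, 0], key 0 _ ?_, by decide, Or.inr ⟨![0, 0, 0, 0, 0, 0, 0, 1, 0, 0], ?_, ?_⟩⟩
      · simp [sf, EE]
      · simp [mono, cv]
      · funext j; fin_cases j <;> decide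
    · refine ⟨![0, 1, 0, 0], key 1 _ ?_, by decide, Or.inr ⟨![0, 0, 0, 0, 0, 0, 0, 0, 1, 0], ?_, ?_⟩⟩
      · simp [sf, EE]
      · simp [mono, cv]
      · funext j; fin_cases j <;> decide
    · refine ⟨![0, 0, 1, 0], key 2 _ ?_, by decide, Or.inr ⟨![0, 0, 0, 0, 0, 0, 0, 0, 0, 1], ?_, ?_⟩⟩
      · simp [sf, EE]
      · simp [mono, cv]
      · funext j; fin_cases j <;> decide

lemma MD.closure {m : Amb 3 3} (hm : m ∈ Submonoid.closure Gs) : MD m := by
  induction hm using Submonoid.closure_induction with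
  | mem x hx => exact MD.gen hx
  | one => exact MD.one
  | mul x y _ _ hx hy => exact hx.mul hy

/-- the degree of the key product -/
def dB : Fin 4 → ℤ := ![3, 1, 1, 5]

noncomputable def PB : Amb 3 3 := zw * zy
noncomputable def M1 : Amb 3 3 := cv 1 * cv 2 ^ 2 * zx ^ 2 * zp
noncomputable def M2 : Amb 3 3 := cv 1 ^ 2 * cv 2 * zx ^ 2 * zq

lemma mono_dB {e : Fin 10 → ℕ} (h : dg e = dB) : mono e = PB ∨ mono e = M1 ∨ mono e = M2 := by
  have h0 := congrFun h 0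
  have h1 := congrFun h 1
  have h2 := congrFun h 2
  have h3 := congrFun h 3
  simp [dg, dB] at h0 h1 h2 h3
  have cases3 : (e 0 = 0 ∧ e 1 = 0 ∧ e 2 = 0 ∧ e 3 = 0 ∧ e 4 = 0 ∧ e 5 = 1 ∧ e 6 = 1 ∧ e 7 = 0
      ∧ e 8 = 0 ∧ e 9 = 0) ∨ (e 0 = 2 ∧ e 1 = 1 ∧ e 2 = 0 ∧ e 3 = 0 ∧ e 4 = 0 ∧ e 5 = 0 ∧
      e 6 = 0 ∧ e 7 = 0 ∧ e 8 = 1 ∧ e 9 = 2) ∨ (e 0 = 2 ∧ e 1 = 0 ∧ e 2 = 1 ∧ e 3 = 0 ∧
      e 4 = 0 ∧ e 5 = 0 ∧ e 6 = 0 ∧ e 7 = 0 ∧ e 8 = 2 ∧ e 9 = 1) := by
    generalize e 0 = a0 at *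
    generalize e 1 = a1 at *
    generalize e 2 = a2 at *
    generalize e 3 = a3 at *
    generalize e 4 = a4 at *
    generalize e 5 = a5 at *
    generalize e 6 = a6 at *
    generalize e 7 = a7 at *
    generalize e 8 = a8 at *
    generalize e 9 = a9 at *
    have b6 : a6 ≤ 1 := by omega
    have b5 : a5 ≤ 3 := by omega
    have b1 : a1 ≤ 3 := by omega
    have b2 : a2 ≤ 3 := by omega
    interval_cases a6 <;> interval_cases a5 <;> interval_cases a1 <;> interval_cases a2 <;> omega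
  unfold mono PB M1 M2
  rcases cases3 with ⟨a0, a1, a2, a3, a4, a5, a6, a7, a8, a9⟩ |
    ⟨a0, a1, a2, a3, a4, a5, a6, a7, a8, a9⟩ | ⟨a0, a1, a2, a3, a4, a5, a6, a7, a8, a9⟩
  · left; rw [a0, a1, a2, a3, a4, a5, a6, a7, a8, a9]; ring
  · right; left; rw [a0, a1, a2, a3, a4, a5, a6, a7, a8, a9]; ring
  · right; right; rw [a0, a1, a2, a3, a4, a5, a6, a7, a8, a9]; ring

end Pool.Agent.Helper96.Clu
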