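import Pool.Agent.Helper96.Clu.Tau

/-!
# Explicit cluster variables and the key identity
-/

namespace Pool.Agent.Helper96.Clu

open St

noncomputable def S0 : Seed 3 3 := initSeed exB

noncomputable def zx : Amb 3 3 := S0.x 0
noncomputable def zp : Amb 3 3 := S0.x 1
noncomputable def zq : Amb 3 3 := S0.x 2
noncomputable def zu : Amb 3 3 := (S0.mutate 1).x 1
noncomputable def zv : Amb 3 3 := (S0.mutate 2).x 2
noncomputable def zw : Amb 3 3 := ((S0.mutate 1).mutate 2).x 2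
noncomputable def zy : Amb 3 3 := (S0.mutate 0).x 0
noncomputable def yu : Amb 3 3 := ((S0.mutate 1).mutate 0).x 0
noncomputable def yv : Amb 3 3 := ((S0.mutate 2).mutate 0).x 0

lemma zu_eq : zu = (zx ^ 3 + cv 0 ^ 2 * cv 1 * zq) / zp := by
  unfold zu
  simp only [Seed.mutate, Function.update_self, Fintype.prod_sum_type, Fin.prod_univ_three,
    ext_inl, ext_inr]
  simp [S0, initSeed, exB, zx, zp, zq]
  ring

lemma zv_eq : zv = (zx ^ 3 + cv 0 ^ 2 * cv 2 * zp) / zq := by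
  unfold zv
  simp only [Seed.mutate, Function.update_self, Fintype.prod_sum_type, Fin.prod_univ_three,
    ext_inl, ext_inr]
  simp [S0, initSeed, exB, zx, zp, zq]
  ring

lemma zy_eq : zy = (cv 1 ^ 3 * zq ^ 3 + cv 2 ^ 3 * zp ^ 3) / zx := by
  unfold zy
  simp only [Seed.mutate, Function.update_self, Fintype.prod_sum_type, Fin.prod_univ_three,
    ext_inl, ext_inr]
  simp [S0, initSeed, exB, zx, zp, zq]
  ring

lemma zw_eq : zw = (zu + cv 0 ^ 2 * cv 2) / zq := by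
  have h0 : (S0.mutate 1).B (Sum.inl 0) 2 = 0 := by decide
  have h1 : (S0.mutate 1).B (Sum.inl 1) 2 = -1 := by decide
  have h2 : (S0.mutate 1).B (Sum.inl 2) 2 = 0 := by decide
  have h3 : (S0.mutate 1).B (Sum.inr 0) 2 = 2 := by decide
  have h4 : (S0.mutate 1).B (Sum.inr 1) 2 = 0 := by decide
  have h5 : (S0.mutate 1).B (Sum.inr 2) 2 = 1 := by decide
  have e : zw = ((∏ i, (S0.mutate 1).ext i ^ ((S0.mutate 1).B i 2).toNat
    + ∏ i, (S0.mutate 1).ext i ^ (- (S0.mutate 1).B i 2).toNat) / (S0.mutate 1).x 2) := by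
    unfold zw
    generalize S0.mutate 1 = s
    simp only [Seed.mutate, Function.update_self]
  have x2 : (S0.mutate 1).x 2 = zq := by simp [Seed.mutate, zq]
  have x1 : (S0.mutate 1).x 1 = zu := rfl
  rw [e]
  simp only [Fintype.prod_sum_type, Fin.prod_univ_three, ext_inl, ext_inr, h0, h1, h2, h3, h4,
    h5, x1, x2]
  simp
  ring

lemma yu_eq : yu = (zu ^ 3 + cv 0 ^ 6 * cv 2 ^ 3) / zx := by
  have h0 : (S0.mutate 1).B (Sum.inl 0) 0 = 0 := by decide
  have h1 : (S0.mutate 1).B (Sum.inl 1) 0 = 3 := by decide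
  have h2 : (S0.mutate 1).B (Sum.inl 2) 0 = 0 := by decide
  have h3 : (S0.mutate 1).B (Sum.inr 0) 0 = -6 := by decide
  have h4 : (S0.mutate 1).B (Sum.inr 1) 0 = 0 := by decide
  have h5 : (S0.mutate 1).B (Sum.inr 2) 0 = -3 := by decide
  have e : yu = ((∏ i, (S0.mutate 1).ext i ^ ((S0.mutate 1).B i 0).toNat
    + ∏ i, (S0.mutate 1).ext i ^ (- (S0.mutate 1).B i 0).toNat) / (S0.mutate 1).x 0) := by
    unfold yu
    generalize S0.mutate 1 = s
    simp only [Seed.mutate, Function.update_self]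
  have x0 : (S0.mutate 1).x 0 = zx := by simp [Seed.mutate, zx]
  have x1 : (S0.mutate 1).x 1 = zu := rfl
  rw [e]
  simp only [Fintype.prod_sum_type, Fin.prod_univ_three, ext_inl, ext_inr, h0, h1, h2, h3, h4,
    h5, x1, x0]
  simp

lemma yv_eq : yv = (zv ^ 3 + cv 0 ^ 6 * cv 1 ^ 3) / zx := by
  have h0 : (S0.mutate 2).B (Sum.inl 0) 0 = 0 := by decide
  have h1 : (S0.mutate 2).B (Sum.inl 1) 0 = 0 := by decide
  have h2 : (S0.mutate 2).B (Sum.inl 2) 0 = -3 := by decide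
  have h3 : (S0.mutate 2).B (Sum.inr 0) 0 = 6 := by decide
  have h4 : (S0.mutate 2).B (Sum.inr 1) 0 = 3 := by decide
  have h5 : (S0.mutate 2).B (Sum.inr 2) 0 = 0 := by decide
  have e : yv = ((∏ i, (S0.mutate 2).ext i ^ ((S0.mutate 2).B i 0).toNat
    + ∏ i, (S0.mutate 2).ext i ^ (- (S0.mutate 2).B i 0).toNat) / (S0.mutate 2).x 0) := by
    unfold yv
    generalize S0.mutate 2 = s
    simp only [Seed.mutate, Function.update_self]
  have x0 : (S0.mutate 2).x 0 = zx := by simp [Seed.mutate, zx]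
  have x2 : (S0.mutate 2).x 2 = zv := rfl
  rw [e]
  simp only [Fintype.prod_sum_type, Fin.prod_univ_three, ext_inl, ext_inr, h0, h1, h2, h3, h4,
    h5, x2, x0]
  simp
  ring

lemma var_ne {n l : ℕ} (i : Fin n ⊕ Fin l) : (var i : Amb n l) ≠ 0 := by
  unfold var
  rw [Ne, map_eq_zero_iff _ (IsFractionRing.injective _ _)]
  exact MvPolynomial.X_ne_zero _

lemma key_identity : cv 0 ^ 4 * (zw * zy) = cv 1 * (zp ^ 2 * yu) + cv 2 * (zq ^ 2 * yv)
    - (cv 1 * zx ^ 5 * zu + 2 * (cv 0 ^ 2 * cv 1 ^ 2 * zx ^ 2 * zq * zu)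
      + cv 2 * zx ^ 5 * zv + 2 * (cv 0 ^ 2 * cv 2 ^ 2 * zx ^ 2 * zp * zv)) := by
  have hx : zx ≠ 0 := var_ne _
  have hp : zp ≠ 0 := var_ne _
  have hq : zq ≠ 0 := var_ne _
  rw [zw_eq, zy_eq, yu_eq, yv_eq, zv_eq, zu_eq]
  field_simp
  ring

end Pool.Agent.Helper96.Clu
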