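import Pool.Agent.Helper96.Clu.State

/-!
# The mutation closed family of rank three seeds
-/

namespace Pool.Agent.Helper96.Clu

set_option linter.unusedSectionVars false
set_option linter.unusedSimpArgs false

variable {K : Type*} [Field K]

/-- fork inequalities -/
def FI (p q r x y z : ℤ) : Prop :=
  ((3 ≤ p ∧ 3 ≤ r ∧ p ≤ q ∧ r ≤ q) ∨ (p ≤ -3 ∧ r ≤ -3 ∧ q ≤ p ∧ q ≤ r)) ∧
    y ≤ x ∧ z ≤ x ∧ 2 ≤ x ∧ 0 ≤ y ∧ 0 ≤ z

lemma FI.stepA {a b c x y z : ℤ} (h : FI a b c x y z) :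
    FI (-b) (c + fB b a) (-a) (exZ b a z x y) z x ∧ 4 ≤ exZ b a z x y := by
  obtain ⟨h1, h2, h3, h4, h5, h6⟩ := h
  rcases h1 with ⟨ha, hc, hab, hcb⟩ | ⟨ha, hc, hab, hcb⟩
  · have e1 : max (-b) 0 = 0 := max_eq_right (by omega)
    have e2 : max (-a) 0 = 0 := max_eq_right (by omega)
    have e3 : max b 0 = b := max_eq_left (by omega)
    have e4 : max a 0 = a := max_eq_left (by omega)
    have f : fB b a = -(b * a) := by unfold fB; rw [e1, e2, e3, e4]; ring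
    have m1 : 3 * b ≤ b * a := by nlinarith
    have m2 : 3 * x ≤ a * x := by nlinarith
    have g : 3 * x - y ≤ exZ b a z x y := by
      unfold exZ
      rw [e1, e2, e3, e4]
      have := le_max_left (0 * z + a * x) (b * z + 0 * x)
      linarith
    refine ⟨⟨Or.inr ⟨by omega, by omega, ?_, ?_⟩, ?_, ?_, ?_, ?_, ?_⟩, ?_⟩ <;>
      (try rw [f]) <;> linarith
  · have e1 : max (-b) 0 = -b := max_eq_left (by omega)
    have e2 : max (-a) 0 = -a := max_eq_left (by omega)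
    have e3 : max b 0 = 0 := max_eq_right (by omega)
    have e4 : max a 0 = 0 := max_eq_right (by omega)
    have f : fB b a = b * a := by unfold fB; rw [e1, e2, e3, e4]; ring
    have m1 : -(3 * b) ≤ b * a := by nlinarith
    have m2 : 3 * x ≤ -a * x := by nlinarith
    have g : 3 * x - y ≤ exZ b a z x y := by
      unfold exZ
      rw [e1, e2, e3, e4]
      have := le_max_right (-b * z + 0 * x) (0 * z + -a * x)
      linarith
    refine ⟨⟨Or.inl ⟨by omega, by omega, ?_, ?_⟩, ?_, ?_, ?_, ?_, ?_⟩, ?_⟩ <;>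
      (try rw [f]) <;> linarith

lemma FI.stepB {a b c x y z : ℤ} (h : FI a b c x y z) :
    FI (-c) (a + fB c b) (-b) (exZ c b x y z) x y ∧ 4 ≤ exZ c b x y z := by
  have h' : FI (-c) (-b) (-a) x z y := by
    obtain ⟨h1, h2, h3, h4, h5, h6⟩ := h
    refine ⟨?_, h3, h2, h4, h6, h5⟩
    rcases h1 with ⟨ha, hc, hab, hcb⟩ | ⟨ha, hc, hab, hcb⟩
    · right; omega
    · left; omega
  obtain ⟨⟨h1, h2, h3, h4, h5, h6⟩, h7⟩ := h'.stepA
  have e : exZ c b x y z = exZ (-b) (-c) y x z := exZ_swap _ _ _ _ _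
  have f : fB (-b) (-c) = -fB c b := by rw [fB_neg, fB_comm]
  rw [e]
  refine ⟨⟨?_, h3, h2, h4, h6, h5⟩, h7⟩
  rw [f] at h1
  rcases h1 with ⟨ha, hc, hab, hcb⟩ | ⟨ha, hc, hab, hcb⟩
  · right; omega
  · left; omega

lemma FI.neg {a b c x y z : ℤ} (h : FI a b c x y z) : FI (-a) (-b) (-c) x y z := by
  obtain ⟨h1, h2⟩ := h
  refine ⟨?_, h2⟩
  rcases h1 with ⟨ha, hc, hab, hcb⟩ | ⟨ha, hc, hab, hcb⟩
  · right; omega
  · left; omega

/-- small or big -/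
def SBp (Sm : K → (Fin 4 → ℤ) → Prop) (v : K) (d : Fin 4 → ℤ) : Prop := Sm v d ∨ 4 ≤ d 0

namespace St

def Fork0 (T : St K) : Prop := FI T.a T.b T.c (T.d0 0) (T.d1 0) (T.d2 0)
def Fork1 (T : St K) : Prop := FI T.b T.c T.a (T.d1 0) (T.d2 0) (T.d0 0)
def Fork2 (T : St K) : Prop := FI T.c T.a T.b (T.d2 0) (T.d0 0) (T.d1 0)

def SB (Sm : K → (Fin 4 → ℤ) → Prop) (T : St K) : Prop :=
  SBp Sm T.g0 T.d0 ∧ SBp Sm T.g1 T.d1 ∧ SBp Sm T.g2 T.d2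

variable {Sm : K → (Fin 4 → ℤ) → Prop} {P : K → Prop}

lemma Fork0.m1 {T : St K} (h : T.Fork0) (hs : T.SB Sm) : T.m1.Fork1 ∧ T.m1.SB Sm :=
  ⟨(FI.stepA h).1, hs.1, Or.inr (FI.stepA h).2, hs.2.2⟩

lemma Fork0.m2 {T : St K} (h : T.Fork0) (hs : T.SB Sm) : T.m2.Fork2 ∧ T.m2.SB Sm :=
  ⟨(FI.stepB h).1, hs.1, hs.2.1, Or.inr (FI.stepB h).2⟩

lemma Fork1.m2 {T : St K} (h : T.Fork1) (hs : T.SB Sm) : T.m2.Fork2 ∧ T.m2.SB Sm :=
  ⟨(FI.stepA h).1, hs.1, hs.2.1, Or.inr (FI.stepA h).2⟩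

lemma Fork1.m0 {T : St K} (h : T.Fork1) (hs : T.SB Sm) : T.m0.Fork0 ∧ T.m0.SB Sm :=
  ⟨(FI.stepB h).1, Or.inr (FI.stepB h).2, hs.2.1, hs.2.2⟩

lemma Fork2.m0 {T : St K} (h : T.Fork2) (hs : T.SB Sm) : T.m0.Fork0 ∧ T.m0.SB Sm :=
  ⟨(FI.stepA h).1, Or.inr (FI.stepA h).2, hs.2.1, hs.2.2⟩

lemma Fork2.m1 {T : St K} (h : T.Fork2) (hs : T.SB Sm) : T.m1.Fork1 ∧ T.m1.SB Sm :=
  ⟨(FI.stepB h).1, hs.1, Or.inr (FI.stepB h).2, hs.2.2⟩

/-- the chain of pentagons -/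
def chK (k : St K) : ℕ → St K
  | 0 => k
  | n + 1 => (chK k n).m1.m2.m0

def chM (k : St K) (n : ℕ) : St K := (chK k n).m1
def chS (k : St K) (n : ℕ) : St K := (chM k n).m2
def chC (k : St K) (n : ℕ) : St K := (chS k n).m1
def chD (k : St K) (n : ℕ) : St K := (chK k n).m2

/-- membership in the chain -/
def Ch (k T : St K) : Prop :=
  ∃ n, T = chK k n ∨ T = chM k n ∨ T = chS k n ∨ T = chC k n ∨ T = chD k n

/-- the family of all seeds -/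
inductive Good (Sm : K → (Fin 4 → ℤ) → Prop) (k k' : St K) : St K → Prop
  | base (T) : Ch k T → Good Sm k k' T
  | opb (T) : Ch k' T → Good Sm k k' T.op
  | sw (T) : Good Sm k k' T → Good Sm k k' T.sw
  | f0 (T) : Good Sm k k' T → T.m0.Fork0 → T.m0.SB Sm → Good Sm k k' T.m0
  | f1 (T) : Good Sm k k' T → T.m1.Fork1 → T.m1.SB Sm → Good Sm k k' T.m1
  | f2 (T) : Good Sm k k' T → T.m2.Fork2 → T.m2.SB Sm → Good Sm k k' T.m2

/-- inequalities along the chain -/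
def Inv (T : St K) : Prop :=
  4 ≤ T.d0 0 ∧ T.d1 0 ≤ T.d0 0 ∧ 0 ≤ T.d1 0 ∧ 0 ≤ T.d2 0

/-- hypotheses on the start of the chain -/
structure Core (P : K → Prop) (Sm : K → (Fin 4 → ℤ) → Prop) (k : St K) : Prop where
  a : k.a = -3
  b : k.b = 1
  c : k.c = 0
  pos : k.Pos P
  sK : k.SB Sm
  sM : k.m1.SB Sm
  sS : k.m1.m2.SB Sm
  sC : k.m1.m2.m1.SB Sm
  sD : k.m2.SB Sm
  fork : k.m1.m2.m1.m0.Fork0
  forkS : k.m1.m2.m1.m0.SB Sm
  inv : (chK k 1).Inv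

lemma ch_abc {k : St K} (ha : k.a = -3) (hb : k.b = 1) (hc : k.c = 0) (n : ℕ) :
    (chK k n).a = -3 ∧ (chK k n).b = 1 ∧ (chK k n).c = 0 := by
  induction n with
  | zero => exact ⟨ha, hb, hc⟩
  | succ n ih =>
    obtain ⟨h1, h2, h3⟩ := ih
    simp only [chK, m0, m1, m2, h1, h2, h3]
    decide

lemma ch_pos (hP : PosSet P) {k : St K} (hk : k.Pos P) (n : ℕ) : (chK k n).Pos P := by
  induction n with
  | zero => exact hk
  | succ n ih => exact ((ih.m1 hP).m2 hP).m0 hP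

lemma chS_abc {k : St K} (ha : k.a = -3) (hb : k.b = 1) (hc : k.c = 0) (n : ℕ) :
    (chS k n).a = 3 ∧ (chS k n).b = 1 ∧ (chS k n).c = 0 := by
  obtain ⟨h1, h2, h3⟩ := ch_abc ha hb hc n
  simp only [chS, chM, m1, m2, h1, h2, h3]
  decide

lemma chC_abc {k : St K} (ha : k.a = -3) (hb : k.b = 1) (hc : k.c = 0) (n : ℕ) :
    (chC k n).a = -3 ∧ (chC k n).b = -1 ∧ (chC k n).c = -3 := by
  obtain ⟨h1, h2, h3⟩ := chS_abc ha hb hc n
  simp only [chC, m1, h1, h2, h3]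
  decide

end St

end Pool.Agent.Helper96.Clu
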