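import Pool.Agent.Helper96.Clu.Defs
import Pool.Agent.Helper96.Clu.Closed

/-!
# Link between geometric seeds and weighted coefficient-free seeds
-/

namespace Pool.Agent.Helper96.Clu

set_option linter.unusedSimpArgs false

lemma max_sub (x : ℤ) : max x 0 - max (-x) 0 = x := by omega

lemma max_mul (x : ℤ) : max x 0 * max (-x) 0 = 0 := by
  rcases le_total 0 x with h | h
  · rw [max_eq_right (show -x ≤ 0 by omega), mul_zero]
  · rw [max_eq_right h, zero_mul]

lemma maxP (m n v w : ℤ) : max (-m) 0 * v + max n 0 * w + max (m * v - n * w) 0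
    = max (max (-m) 0 * v + max n 0 * w) (max m 0 * v + max (-n) 0 * w) := by
  have h : max m 0 * v + max (-n) 0 * w
      = (max (-m) 0 * v + max n 0 * w) + (m * v - n * w) := by
    linear_combination v * max_sub m - w * max_sub n
  rw [h]
  generalize max (-m) 0 * v + max n 0 * w = P
  generalize m * v - n * w = R
  omega

lemma maxN (m n v w : ℤ) : max m 0 * v + max (-n) 0 * w + max (-(m * v - n * w)) 0
    = max (max (-m) 0 * v + max n 0 * w) (max m 0 * v + max (-n) 0 * w) := by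
  have h : max m 0 * v + max (-n) 0 * w
      = (max (-m) 0 * v + max n 0 * w) + (m * v - n * w) := by
    linear_combination v * max_sub m - w * max_sub n
  rw [h]
  generalize max (-m) 0 * v + max n 0 * w = P
  generalize m * v - n * w = R
  omega

lemma rowA (a b c d0 d1 d2 : ℤ) :
    (b * d2 - a * d0) + (max (a * d1 - c * d2) 0 * max a 0
      - max (-(a * d1 - c * d2)) 0 * max (-a) 0)
    = (b + fB a c) * d2 - (-a) * exZ a c d1 d2 d0 := by
  unfold fB exZ
  have h1 := maxP a c d1 d2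
  have h2 := maxN a c d1 d2
  have h3 := max_mul a
  have h4 := max_sub a
  generalize max (max (-a) 0 * d1 + max c 0 * d2) (max a 0 * d1 + max (-c) 0 * d2) = M at *
  generalize max (a * d1 - c * d2) 0 = rp at *
  generalize max (-(a * d1 - c * d2)) 0 = rm at *
  generalize max a 0 = ap at *
  generalize max (-a) 0 = am at *
  generalize max c 0 = cp at *
  generalize max (-c) 0 = cm at *
  linear_combination ap * h1 - am * h2 + M * h4

lemma rowB (a b c d0 d1 d2 : ℤ) :
    (c * d0 - b * d1) + (max (a * d1 - c * d2) 0 * max (-c) 0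
      - max (-(a * d1 - c * d2)) 0 * max c 0)
    = (-c) * exZ a c d1 d2 d0 - (b + fB a c) * d1 := by
  unfold fB exZ
  have h1 := maxP a c d1 d2
  have h2 := maxN a c d1 d2
  have h3 := max_mul c
  have h4 := max_sub c
  generalize max (max (-a) 0 * d1 + max c 0 * d2) (max a 0 * d1 + max (-c) 0 * d2) = M at *
  generalize max (a * d1 - c * d2) 0 = rp at *
  generalize max (-(a * d1 - c * d2)) 0 = rm at *
  generalize max a 0 = ap at *
  generalize max (-a) 0 = am at *
  generalize max c 0 = cp at *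
  generalize max (-c) 0 = cm at *
  linear_combination cm * h1 - cp * h2 - M * h4

section exch

variable {K : Type*} [Field K]

/-- a monomial in the three coefficient variables -/
def cm (c : Fin 3 → K) (d : Fin 4 → ℤ) : K := c 0 ^ d 0 * c 1 ^ d 1 * c 2 ^ d 2

lemma cm_ne {c : Fin 3 → K} (hc : ∀ j, c j ≠ 0) (d : Fin 4 → ℤ) : cm c d ≠ 0 :=
  mul_ne_zero (mul_ne_zero (zpow_ne_zero _ (hc 0)) (zpow_ne_zero _ (hc 1)))
    (zpow_ne_zero _ (hc 2))

lemma mon {c : Fin 3 → K} (hc : ∀ j, c j ≠ 0) (v w : K) (dv dw : Fin 4 → ℤ) (m n : ℤ)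
    (r : Fin 3 → ℤ) :
    (v * cm c dv) ^ m.toNat * (w * cm c dw) ^ n.toNat * (∏ j : Fin 3, c j ^ (r j).toNat)
    = v ^ m.toNat * w ^ n.toNat * (c 0 ^ (max m 0 * dv 0 + max n 0 * dw 0 + max (r 0) 0)
      * c 1 ^ (max m 0 * dv 1 + max n 0 * dw 1 + max (r 1) 0)
      * c 2 ^ (max m 0 * dv 2 + max n 0 * dw 2 + max (r 2) 0)) := by
  have key : ∀ (x : K), x ≠ 0 → ∀ (a b : ℤ) (e : ℤ),
      (x ^ a) ^ m.toNat * (x ^ b) ^ n.toNat * x ^ e.toNat
        = x ^ (max m 0 * a + max n 0 * b + max e 0) := by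
    intro x hx a b e
    rw [zpow_add₀ hx, zpow_add₀ hx]
    congr 1
    · congr 1
      · rw [← zpow_natCast, ← zpow_mul, Int.toNat_eq_max, mul_comm]
      · rw [← zpow_natCast, ← zpow_mul, Int.toNat_eq_max, mul_comm]
    · rw [← zpow_natCast, Int.toNat_eq_max]
  rw [← key _ (hc 0), ← key _ (hc 1), ← key _ (hc 2), Fin.prod_univ_three]
  unfold cm
  rw [mul_pow, mul_pow, mul_pow, mul_pow, mul_pow, mul_pow]
  ring

lemma exch {c : Fin 3 → K} (hc : ∀ j, c j ≠ 0) (m n : ℤ) (v w u : K) (dv dw du : Fin 4 → ℤ) :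
    ((v * cm c dv) ^ (-m).toNat * (w * cm c dw) ^ n.toNat
        * (∏ j : Fin 3, c j ^ (m * dv j.castSucc - n * dw j.castSucc).toNat)
      + (v * cm c dv) ^ m.toNat * (w * cm c dw) ^ (-n).toNat
        * (∏ j : Fin 3, c j ^ (-(m * dv j.castSucc - n * dw j.castSucc)).toNat))
      / (u * cm c du)
    = exK m n v w u * cm c (fun j => exZ m n (dv j) (dw j) (du j)) := by
  rw [mon hc, mon hc]
  have e0 : (Fin.castSucc (0 : Fin 3)) = (0 : Fin 4) := rfl
  have e1 : (Fin.castSucc (1 : Fin 3)) = (1 : Fin 4) := rfl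
  have e2 : (Fin.castSucc (2 : Fin 3)) = (2 : Fin 4) := rfl
  rw [e0, e1, e2, maxP, maxP, maxP, maxN, maxN, maxN]
  have hz : cm c (fun j => exZ m n (dv j) (dw j) (du j)) * cm c du
      = c 0 ^ max (max (-m) 0 * dv 0 + max n 0 * dw 0) (max m 0 * dv 0 + max (-n) 0 * dw 0)
      * c 1 ^ max (max (-m) 0 * dv 1 + max n 0 * dw 1) (max m 0 * dv 1 + max (-n) 0 * dw 1)
      * c 2 ^ max (max (-m) 0 * dv 2 + max n 0 * dw 2) (max m 0 * dv 2 + max (-n) 0 * dw 2) := by
    unfold cm
    have key : ∀ (x : K), x ≠ 0 → ∀ (a b : ℤ), x ^ (a - b) * x ^ b = x ^ a := by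
      intro x hx a b
      rw [← zpow_add₀ hx, sub_add_cancel]
    have re : ∀ p q r s t w : K, p * q * r * (s * t * w) = (p * s) * (q * t) * (r * w) := by
      intros; ring
    unfold exZ
    rw [re, key _ (hc 0), key _ (hc 1), key _ (hc 2)]
  rw [← hz]
  have h1 := cm_ne hc du
  unfold exK
  rcases eq_or_ne u 0 with hu | hu
  · simp [hu]
  · field_simp

end exch

/-- the coefficient variables -/
noncomputable def cv (j : Fin 3) : Amb 3 3 := var (Sum.inr j)

/-- `s` is the seed with coefficients attached to the weighted seed `T` -/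
structure Rel (s : Seed 3 3) (T : St (Amb 3 3)) : Prop where
  b00 : s.B (Sum.inl 0) 0 = 0
  b01 : s.B (Sum.inl 0) 1 = T.a
  b02 : s.B (Sum.inl 0) 2 = -T.c
  b10 : s.B (Sum.inl 1) 0 = -T.a
  b11 : s.B (Sum.inl 1) 1 = 0
  b12 : s.B (Sum.inl 1) 2 = T.b
  b20 : s.B (Sum.inl 2) 0 = T.c
  b21 : s.B (Sum.inl 2) 1 = -T.b
  b22 : s.B (Sum.inl 2) 2 = 0
  r0 : ∀ j : Fin 3, s.B (Sum.inr j) 0 = T.a * T.d1 j.castSucc - T.c * T.d2 j.castSucc
  r1 : ∀ j : Fin 3, s.B (Sum.inr j) 1 = T.b * T.d2 j.castSucc - T.a * T.d0 j.castSucc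
  r2 : ∀ j : Fin 3, s.B (Sum.inr j) 2 = T.c * T.d0 j.castSucc - T.b * T.d1 j.castSucc
  x0 : s.x 0 = T.g0 * cm cv T.d0
  x1 : s.x 1 = T.g1 * cm cv T.d1
  x2 : s.x 2 = T.g2 * cm cv T.d2

lemma cv_ne (j : Fin 3) : cv j ≠ 0 := by
  unfold cv var
  rw [Ne, map_eq_zero_iff _ (IsFractionRing.injective _ _)]
  exact MvPolynomial.X_ne_zero _

lemma ext_inl (s : Seed 3 3) (i : Fin 3) : s.ext (Sum.inl i) = s.x i := rfl
lemma ext_inr (s : Seed 3 3) (j : Fin 3) : s.ext (Sum.inr j) = cv j := rfl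

lemma Rel.mut0 {s : Seed 3 3} {T : St (Amb 3 3)} (h : Rel s T) : Rel (s.mutate 0) T.m0 := by
  constructor
  · simp [Seed.mutate, mutB, h.b00]
  · simp [Seed.mutate, mutB, h.b01, St.m0]
  · simp [Seed.mutate, mutB, h.b02, St.m0]
  · simp [Seed.mutate, mutB, h.b10, St.m0]
  · simp only [Seed.mutate, mutB, h.b11, h.b10, h.b01]
    simp [mul_comm]
  · simp only [Seed.mutate, mutB, h.b12, h.b10, h.b02, St.m0, fB]
    simp [mul_comm]
  · simp [Seed.mutate, mutB, h.b20, St.m0]
  · simp only [Seed.mutate, mutB, h.b21, h.b20, h.b01, St.m0, fB]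
    simp
    ring
  · simp only [Seed.mutate, mutB, h.b22, h.b20, h.b02]
    simp [mul_comm]
  · intro j
    simp only [Seed.mutate, mutB, h.r0, St.m0]
    simp
    ring
  · intro j
    have := rowA T.a T.b T.c (T.d0 j.castSucc) (T.d1 j.castSucc) (T.d2 j.castSucc)
    simp only [Seed.mutate, mutB, h.r0, h.r1, h.b01, St.m0]
    simp only [reduceCtorEq, false_or, Fin.isValue, Fin.reduceEq, if_false]
    exact this
  · intro j
    have := rowB T.a T.b T.c (T.d0 j.castSucc) (T.d1 j.castSucc) (T.d2 j.castSucc)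
    simp only [Seed.mutate, mutB, h.r0, h.r2, h.b02, St.m0]
    simp only [reduceCtorEq, false_or, Fin.isValue, Fin.reduceEq, if_false, neg_neg]
    exact this
  · have e := exch cv_ne T.a T.c T.g1 T.g2 T.g0 T.d1 T.d2 T.d0
    simp only [Seed.mutate, St.m0]
    rw [Function.update_self, ← e]
    simp only [Fintype.prod_sum_type, ext_inl, ext_inr, h.r0, h.x0, h.x1, h.x2, h.b00, h.b10,
      h.b20, Fin.prod_univ_three, neg_neg]
    simp
  · simp [Seed.mutate, St.m0, h.x1]
  · simp [Seed.mutate, St.m0, h.x2]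

lemma Rel.mut1 {s : Seed 3 3} {T : St (Amb 3 3)} (h : Rel s T) : Rel (s.mutate 1) T.m1 := by
  constructor
  · simp only [Seed.mutate, mutB, h.b00, h.b01, h.b10]
    simp [mul_comm]
  · simp [Seed.mutate, mutB, h.b01, St.m1]
  · simp only [Seed.mutate, mutB, h.b02, h.b01, h.b12, St.m1, fB]
    simp
    ring
  · simp [Seed.mutate, mutB, h.b10, St.m1]
  · simp [Seed.mutate, mutB, h.b11]
  · simp [Seed.mutate, mutB, h.b12, St.m1]
  · simp only [Seed.mutate, mutB, h.b20, h.b21, h.b10, St.m1, fB]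
    simp
  · simp [Seed.mutate, mutB, h.b21, St.m1]
  · simp only [Seed.mutate, mutB, h.b22, h.b21, h.b12]
    simp [mul_comm]
  · intro j
    have := rowB T.b T.c T.a (T.d1 j.castSucc) (T.d2 j.castSucc) (T.d0 j.castSucc)
    simp only [Seed.mutate, mutB, h.r0, h.r1, h.b10, St.m1]
    simp only [reduceCtorEq, false_or, Fin.isValue, Fin.reduceEq, if_false, neg_neg]
    exact this
  · intro j
    simp only [Seed.mutate, mutB, h.r1, St.m1]
    simp
    ring
  · intro j
    have := rowA T.b T.c T.a (T.d1 j.castSucc) (T.d2 j.castSucc) (T.d0 j.castSucc)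
    simp only [Seed.mutate, mutB, h.r1, h.r2, h.b12, St.m1]
    simp only [reduceCtorEq, false_or, Fin.isValue, Fin.reduceEq, if_false, neg_neg]
    exact this
  · simp [Seed.mutate, St.m1, h.x0]
  · have e := exch cv_ne T.b T.a T.g2 T.g0 T.g1 T.d2 T.d0 T.d1
    simp only [Seed.mutate, St.m1]
    rw [Function.update_self, ← e]
    simp only [Fintype.prod_sum_type, ext_inl, ext_inr, h.r1, h.x0, h.x1, h.x2, h.b01, h.b11,
      h.b21, Fin.prod_univ_three, neg_neg]
    simp only [Int.toNat_zero, neg_zero, pow_zero, mul_one]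
    rw [mul_comm ((T.g0 * cm cv T.d0) ^ T.a.toNat), mul_comm ((T.g0 * cm cv T.d0) ^ (-T.a).toNat)]
  · simp [Seed.mutate, St.m1, h.x2]

lemma Rel.mut2 {s : Seed 3 3} {T : St (Amb 3 3)} (h : Rel s T) : Rel (s.mutate 2) T.m2 := by
  constructor
  · simp only [Seed.mutate, mutB, h.b00, h.b02, h.b20]
    simp [mul_comm]
  · simp only [Seed.mutate, mutB, h.b01, h.b02, h.b21, St.m2, fB]
    simp
  · simp [Seed.mutate, mutB, h.b02, St.m2]
  · simp only [Seed.mutate, mutB, h.b10, h.b12, h.b20, St.m2, fB]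
    simp
    ring
  · simp only [Seed.mutate, mutB, h.b11, h.b12, h.b21]
    simp [mul_comm]
  · simp [Seed.mutate, mutB, h.b12, St.m2]
  · simp [Seed.mutate, mutB, h.b20, St.m2]
  · simp [Seed.mutate, mutB, h.b21, St.m2]
  · simp [Seed.mutate, mutB, h.b22]
  · intro j
    have := rowA T.c T.a T.b (T.d2 j.castSucc) (T.d0 j.castSucc) (T.d1 j.castSucc)
    simp only [Seed.mutate, mutB, h.r0, h.r2, h.b20, St.m2]
    simp only [reduceCtorEq, false_or, Fin.isValue, Fin.reduceEq, if_false, neg_neg]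
    exact this
  · intro j
    have := rowB T.c T.a T.b (T.d2 j.castSucc) (T.d0 j.castSucc) (T.d1 j.castSucc)
    simp only [Seed.mutate, mutB, h.r1, h.r2, h.b21, St.m2]
    simp only [reduceCtorEq, false_or, Fin.isValue, Fin.reduceEq, if_false, neg_neg]
    exact this
  · intro j
    simp only [Seed.mutate, mutB, h.r2, St.m2]
    simp
    ring
  · simp [Seed.mutate, St.m2, h.x0]
  · simp [Seed.mutate, St.m2, h.x1]
  · have e := exch cv_ne T.c T.b T.g0 T.g1 T.g2 T.d0 T.d1 T.d2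
    simp only [Seed.mutate, St.m2]
    rw [Function.update_self, ← e]
    simp only [Fintype.prod_sum_type, ext_inl, ext_inr, h.r2, h.x0, h.x1, h.x2, h.b02, h.b12,
      h.b22, Fin.prod_univ_three, neg_neg]
    simp only [Int.toNat_zero, neg_zero, pow_zero, mul_one]

end Pool.Agent.Helper96.Clu
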