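import Pool.Agent.Helper96.Clu.Core

/-!
# A scaling automorphism and the grading of the example
-/

namespace Pool.Agent.Helper96.Clu

open MvPolynomial St

/-- the scaling of the variables -/
noncomputable def scal (e : Fin 3 ⊕ Fin 3 → ℂ) :
    MvPolynomial (Fin 3 ⊕ Fin 3) ℂ →ₐ[ℂ] MvPolynomial (Fin 3 ⊕ Fin 3) ℂ :=
  MvPolynomial.aeval (fun i => C (e i) * X i)

lemma scal_inj {e : Fin 3 ⊕ Fin 3 → ℂ} (he : ∀ i, e i ≠ 0) : Function.Injective (scal e) := by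
  have h : (scal (fun i => (e i)⁻¹)).comp (scal e) = AlgHom.id ℂ _ := by
    apply MvPolynomial.algHom_ext
    intro i
    simp only [AlgHom.comp_apply, scal, aeval_X, map_mul, AlgHom.id_apply]
    rw [← MvPolynomial.algebraMap_eq, AlgHom.commutes, MvPolynomial.algebraMap_eq, ← mul_assoc,
      ← C_mul, mul_inv_cancel₀ (he i), C_1, one_mul]
  intro x y hxy
  have h1 := congrArg (scal (fun i => (e i)⁻¹)) hxy
  rw [← AlgHom.comp_apply, ← AlgHom.comp_apply, h] at h1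
  exact h1

/-- the scaling factors -/
noncomputable def sf : Fin 3 ⊕ Fin 3 → ℂ :=
  Sum.elim ![3 * 2, 3 * 7⁻¹ * 2 ^ 3, 3 * 5⁻¹ * 2 ^ 3] ![3, 5, 7]

lemma sf_ne (i : Fin 3 ⊕ Fin 3) : sf i ≠ 0 := by
  rcases i with i | i <;> fin_cases i <;> simp [sf]

lemma tau_inj : Function.Injective
    ((IsScalarTower.toAlgHom ℂ (MvPolynomial (Fin 3 ⊕ Fin 3) ℂ) (Amb 3 3)).comp (scal sf)) := by
  have h1 : Function.Injective (algebraMap (MvPolynomial (Fin 3 ⊕ Fin 3) ℂ) (Amb 3 3)) :=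
    IsFractionRing.injective _ _
  exact h1.comp (scal_inj sf_ne)

/-- the scaling endomorphism of the ambient field -/
noncomputable def tau : Amb 3 3 →ₐ[ℂ] Amb 3 3 :=
  IsFractionRing.liftAlgHom (K := Amb 3 3) tau_inj

lemma tau_var (i : Fin 3 ⊕ Fin 3) : tau (var i) = algebraMap ℂ (Amb 3 3) (sf i) * var i := by
  have : tau (var i) = ((IsScalarTower.toAlgHom ℂ (MvPolynomial (Fin 3 ⊕ Fin 3) ℂ)
      (Amb 3 3)).comp (scal sf)) (X i) := by
    unfold tau var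
    rw [IsFractionRing.liftAlgHom_apply, IsFractionRing.lift_algebraMap]
    rfl
  rw [this]
  simp only [AlgHom.comp_apply, scal, aeval_X, map_mul]
  unfold var
  rw [IsScalarTower.algebraMap_apply ℂ (MvPolynomial (Fin 3 ⊕ Fin 3) ℂ) (Amb 3 3)]
  rfl

/-- `f` is an eigenvector with eigenvalue `c` -/
def Eg (f : Amb 3 3) (c : ℂ) : Prop := tau f = algebraMap ℂ (Amb 3 3) c * f

lemma Eg.mul {f g : Amb 3 3} {a b : ℂ} (hf : Eg f a) (hg : Eg g b) : Eg (f * g) (a * b) := by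
  unfold Eg at *
  rw [map_mul, map_mul, hf, hg]; ring

lemma Eg.add {f g : Amb 3 3} {a : ℂ} (hf : Eg f a) (hg : Eg g a) : Eg (f + g) a := by
  unfold Eg at *
  rw [map_add, hf, hg]; ring

lemma Eg.one : Eg 1 1 := by
  unfold Eg; rw [map_one, map_one, mul_one]

lemma Eg.pow {f : Amb 3 3} {a : ℂ} (hf : Eg f a) (n : ℕ) : Eg (f ^ n) (a ^ n) := by
  induction n with
  | zero => rw [pow_zero, pow_zero]; exact Eg.one
  | succ n ih => rw [pow_succ, pow_succ]; exact ih.mul hf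

lemma Eg.inv {f : Amb 3 3} {a : ℂ} (hf : Eg f a) : Eg f⁻¹ a⁻¹ := by
  unfold Eg at *
  rw [map_inv₀, hf, map_inv₀, mul_inv]

lemma Eg.zpow {f : Amb 3 3} {a : ℂ} (hf : Eg f a) (n : ℤ) : Eg (f ^ n) (a ^ n) := by
  rcases n with n | n
  · rw [Int.ofNat_eq_natCast, zpow_natCast, zpow_natCast]; exact hf.pow n
  · rw [zpow_negSucc, zpow_negSucc]; exact (hf.pow _).inv

lemma Eg.div {f g : Amb 3 3} {a b : ℂ} (hf : Eg f a) (hg : Eg g b) : Eg (f / g) (a / b) := by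
  rw [div_eq_mul_inv, div_eq_mul_inv]; exact hf.mul hg.inv

lemma Eg_var (i : Fin 3 ⊕ Fin 3) : Eg (var i) (sf i) := tau_var i

lemma two_ne : (2 : ℂ) ≠ 0 := two_ne_zero

lemma Eg_exK {m n : ℤ} {v w u : Amb 3 3} {a b c : ℤ} (hv : Eg v (2 ^ a)) (hw : Eg w (2 ^ b))
    (hu : Eg u (2 ^ c)) (h : m * a = n * b) : Eg (exK m n v w u) (2 ^ (exZ m n a b c)) := by
  have key : ∀ p q : ℤ, Eg (v ^ p.toNat * w ^ q.toNat) (2 ^ (max p 0 * a + max q 0 * b)) := by
    intro p q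
    have h1 := (hv.pow p.toNat).mul (hw.pow q.toNat)
    rwa [← zpow_natCast ((2 : ℂ) ^ a), ← zpow_natCast ((2 : ℂ) ^ b), ← zpow_mul, ← zpow_mul,
      ← zpow_add₀ two_ne, Int.toNat_eq_max, Int.toNat_eq_max, mul_comm a, mul_comm b] at h1
  have e : max (-m) 0 * a + max n 0 * b = max m 0 * a + max (-n) 0 * b := by
    linear_combination (-a) * max_sub m + b * max_sub n - h
  unfold exK exZ
  have k1 := key (-m) n
  have k2 := key m (-n)
  rw [← e] at k2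
  have k3 := (k1.add k2).div hu
  rw [← e, max_self, zpow_sub₀ two_ne]
  exact k3

/-- homogeneity of the fourth weight, and scaling behaviour -/
structure Hg (T : St (Amb 3 3)) : Prop where
  h0 : T.a * T.d1 3 = T.c * T.d2 3
  h1 : T.b * T.d2 3 = T.a * T.d0 3
  h2 : T.c * T.d0 3 = T.b * T.d1 3
  e0 : Eg T.g0 (2 ^ T.d0 3)
  e1 : Eg T.g1 (2 ^ T.d1 3)
  e2 : Eg T.g2 (2 ^ T.d2 3)

lemma Hg.m0 {T : St (Amb 3 3)} (h : Hg T) : Hg T.m0 := by
  have rA := rowA T.a T.b T.c (T.d0 3) (T.d1 3) (T.d2 3)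
  have rB := rowB T.a T.b T.c (T.d0 3) (T.d1 3) (T.d2 3)
  have z0 : T.a * T.d1 3 - T.c * T.d2 3 = 0 := by linear_combination h.h0
  have z1 : T.b * T.d2 3 - T.a * T.d0 3 = 0 := by linear_combination h.h1
  have z2 : T.c * T.d0 3 - T.b * T.d1 3 = 0 := by linear_combination h.h2
  rw [z0, z1] at rA
  rw [z0, z2] at rB
  simp only [neg_zero, max_self, zero_mul, sub_zero, add_zero] at rA rB
  constructor
  · simp only [St.m0]; linear_combination (-1 : ℤ) * h.h0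
  · simp only [St.m0]; linear_combination (-1 : ℤ) * rA
  · simp only [St.m0]; linear_combination (-1 : ℤ) * rB
  · exact Eg_exK h.e1 h.e2 h.e0 h.h0
  · exact h.e1
  · exact h.e2

lemma Hg.m1 {T : St (Amb 3 3)} (h : Hg T) : Hg T.m1 := by
  have rA := rowA T.b T.c T.a (T.d1 3) (T.d2 3) (T.d0 3)
  have rB := rowB T.b T.c T.a (T.d1 3) (T.d2 3) (T.d0 3)
  have z0 : T.b * T.d2 3 - T.a * T.d0 3 = 0 := by linear_combination h.h1
  have z1 : T.c * T.d0 3 - T.b * T.d1 3 = 0 := by linear_combination h.h2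
  have z2 : T.a * T.d1 3 - T.c * T.d2 3 = 0 := by linear_combination h.h0
  rw [z0, z1] at rA
  rw [z0, z2] at rB
  simp only [neg_zero, max_self, zero_mul, sub_zero, add_zero] at rA rB
  constructor
  · simp only [St.m1]; linear_combination (-1 : ℤ) * rB
  · simp only [St.m1]; linear_combination (-1 : ℤ) * h.h1
  · simp only [St.m1]; linear_combination (-1 : ℤ) * rA
  · exact h.e0
  · exact Eg_exK h.e2 h.e0 h.e1 h.h1
  · exact h.e2

lemma Hg.m2 {T : St (Amb 3 3)} (h : Hg T) : Hg T.m2 := by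
  have rA := rowA T.c T.a T.b (T.d2 3) (T.d0 3) (T.d1 3)
  have rB := rowB T.c T.a T.b (T.d2 3) (T.d0 3) (T.d1 3)
  have z0 : T.c * T.d0 3 - T.b * T.d1 3 = 0 := by linear_combination h.h2
  have z1 : T.a * T.d1 3 - T.c * T.d2 3 = 0 := by linear_combination h.h0
  have z2 : T.b * T.d2 3 - T.a * T.d0 3 = 0 := by linear_combination h.h1
  rw [z0, z1] at rA
  rw [z0, z2] at rB
  simp only [neg_zero, max_self, zero_mul, sub_zero, add_zero] at rA rB
  constructor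
  · simp only [St.m2]; linear_combination (-1 : ℤ) * rA
  · simp only [St.m2]; linear_combination (-1 : ℤ) * rB
  · simp only [St.m2]; linear_combination (-1 : ℤ) * h.h2
  · exact h.e0
  · exact h.e1
  · exact Eg_exK h.e0 h.e1 h.e2 h.h2

/-- the eigenvalue attached to a degree -/
noncomputable def EE (d : Fin 4 → ℤ) : ℂ := 3 ^ d 0 * 5 ^ d 1 * 7 ^ d 2 * 2 ^ d 3

lemma Eg_cm (d : Fin 4 → ℤ) : Eg (cm cv d) (3 ^ d 0 * 5 ^ d 1 * 7 ^ d 2) := by
  have h0 := (Eg_var (Sum.inr 0)).zpow (d 0)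
  have h1 := (Eg_var (Sum.inr 1)).zpow (d 1)
  have h2 := (Eg_var (Sum.inr 2)).zpow (d 2)
  exact (h0.mul h1).mul h2

lemma Eg_full {g : Amb 3 3} {d : Fin 4 → ℤ} (h : Eg g (2 ^ d 3)) : Eg (g * cm cv d) (EE d) := by
  have := h.mul (Eg_cm d)
  unfold EE
  rwa [mul_comm (2 ^ d 3 : ℂ)] at this

lemma Hg_t0 : Hg t0 := by
  have aux : ∀ (i : Fin 3) (d : Fin 4 → ℤ), sf (Sum.inl i) = EE d →
      Eg (var (Sum.inl i) * (cm cv d)⁻¹) (2 ^ d 3) := by
    intro i d hd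
    have h := (Eg_var (Sum.inl i)).mul (Eg_cm d).inv
    rw [hd] at h
    have e : EE d * (3 ^ d 0 * 5 ^ d 1 * 7 ^ d 2)⁻¹ = 2 ^ d 3 := by
      unfold EE
      have h3 : (3 : ℂ) ^ d 0 ≠ 0 := zpow_ne_zero _ (by norm_num)
      have h5 : (5 : ℂ) ^ d 1 ≠ 0 := zpow_ne_zero _ (by norm_num)
      have h7 : (7 : ℂ) ^ d 2 ≠ 0 := zpow_ne_zero _ (by norm_num)
      field_simp
    rwa [e] at h
  constructor
  · rfl
  · rfl
  · rfl
  · exact aux 0 dX (by simp [sf, EE, dX])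
  · exact aux 1 dP (by simp [sf, EE, dP])
  · exact aux 2 dQ (by simp [sf, EE, dQ])

/-- all seeds of the example -/
lemma seed_all {s : Seed 3 3} (hs : IsSeed exB s) :
    ∃ T, Rel s T ∧ Good Sm k0 k0' T ∧ Hg T := by
  induction hs with
  | init => exact ⟨t0, rel_init, good_t0, Hg_t0⟩
  | step s k _ ih =>
    obtain ⟨T, h1, h2, h3⟩ := ih
    obtain ⟨g0, g1, g2⟩ := good_closed hP Sm_nonneg core0 core1 rfl h2
    fin_cases k
    · exact ⟨T.m0, h1.mut0, g0, h3.m0⟩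
    · exact ⟨T.m1, h1.mut1, g1, h3.m1⟩
    · exact ⟨T.m2, h1.mut2, g2, h3.m2⟩

/-- all cluster variables of the example -/
lemma var_all {z : Amb 3 3} (hz : IsClusterVar exB z) :
    ∃ g d, z = g * cm cv d ∧ SBp Sm g d ∧ Eg z (EE d) := by
  obtain ⟨s, hs, i, rfl⟩ := hz
  obtain ⟨T, h1, h2, h3⟩ := seed_all hs
  obtain ⟨b0, b1, b2⟩ := good_SB hP core0 core1 h2
  fin_cases i
  · have e0 : Eg (s.x 0) (EE T.d0) := by rw [h1.x0]; exact Eg_full h3.e0
    exact ⟨T.g0, T.d0, h1.x0, b0, e0⟩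
  · have e1 : Eg (s.x 1) (EE T.d1) := by rw [h1.x1]; exact Eg_full h3.e1
    exact ⟨T.g1, T.d1, h1.x1, b1, e1⟩
  · have e2 : Eg (s.x 2) (EE T.d2) := by rw [h1.x2]; exact Eg_full h3.e2
    exact ⟨T.g2, T.d2, h1.x2, b2, e2⟩

end Pool.Agent.Helper96.Clu
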